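import Mathlib
import Pool.Agent.Lib.MP_570bef_ntRE.Count

/-!
# LEAF CN: covering by windows

Copy the proof of `count_lemma` (`MP_570bef_ntRE/Count.lean`) with `E` in place of `{t | t ∈ Icc a b ∧ 1 ≤ g t}`: `M` = the set of `m ≤ n = ⌊(b - a)/r⌋₊` for which `[a + m r, a + (m+1) r]` meets `E`. For such an `m` (with `t0 ∈ E` in the interval) all `t` of the interval
have `|t0 - t| ≤ r` and lie in `[t1, t2]`, so `g t ≥ T`, and `om t1 t2 t ≥ (a - t1)(t2 - b)/2`, so the integral of `om g` over the interval is `≥ r (a - t1)(t2 - b)/2 * T ≥ r (a - t1)(t2 - b)/4 * T`. Sum up.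
-/

set_option autoImplicit false

namespace Pool.Agent.Lib.MP_570bef_ntXD

open Pool.Agent.Lib.MP_570bef_ntRE

theorem count_w {t1 t2 a b r T : ℝ} (h1 : t1 < a) (hab : a ≤ b) (h2 : b < t2) (hr : 0 < r)
    (hr2 : r ≤ (t2 - b) / 2) (hT : 0 ≤ T) (g : ℝ → ℝ) (hgc : ContinuousOn g (Set.Icc t1 t2))
    (hg0 : ∀ t ∈ Set.Icc t1 t2, 0 ≤ g t) (E : Set ℝ)
    (hE : ∀ t ∈ E, t ∈ Set.Icc a b ∧ ∀ t' ∈ Set.Icc t1 t2, |t - t'| ≤ r → T ≤ g t') :
    ∃ M : Finset ℕ,
      E ⊆ ⋃ m ∈ M, Set.Icc (a + m * r) (a + (m + 1) * r) ∧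
      (M.card : ℝ) * r * ((a - t1) * (t2 - b) / 4) * T ≤ ∫ t in t1..t2, om t1 t2 t * g t := by
  classical
  obtain ⟨n, hn⟩ : ∃ n : ℕ, n = ⌊(b - a) / r⌋₊ := ⟨_, rfl⟩
  have hba : 0 ≤ (b - a) / r := div_nonneg (by linarith) hr.le
  have hnr : (n : ℝ) * r ≤ b - a := by
    have h3 := Nat.floor_le hba
    rw [← hn, le_div_iff₀ hr] at h3
    exact h3
  obtain ⟨s, hs⟩ : ∃ s : ℕ → ℝ, ∀ m : ℕ, s m = a + m * r := ⟨_, fun _ => rfl⟩
  have hs1 : ∀ m : ℕ, s (m + 1) = a + (m + 1) * r := by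
    intro m
    rw [hs]
    push_cast
    ring
  have hle : ∀ m : ℕ, s m ≤ s (m + 1) := by
    intro m
    rw [hs, hs1]
    linarith
  have hlo : ∀ m : ℕ, a ≤ s m := by
    intro m
    rw [hs]
    have : 0 ≤ (m : ℝ) * r := by positivity
    linarith
  have hup : ∀ m : ℕ, m < n + 1 → s (m + 1) ≤ b + r := by
    intro m hm
    rw [hs1]
    have h3 : (m : ℝ) ≤ n := by exact_mod_cast Nat.lt_succ_iff.1 hm
    have h4 : (m : ℝ) * r ≤ n * r := mul_le_mul_of_nonneg_right h3 hr.le
    linarith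
  have hin : ∀ m : ℕ, m < n + 1 → Set.Icc (s m) (s (m + 1)) ⊆ Set.Icc t1 t2 := by
    intro m hm t ht
    have h3 := hlo m
    have h4 := hup m hm
    exact ⟨by linarith [ht.1], by linarith [ht.2]⟩
  have hf : ContinuousOn (fun t => om t1 t2 t * g t) (Set.Icc t1 t2) := by
    refine ContinuousOn.mul ?_ hgc
    unfold om
    fun_prop
  have hint : ∀ m : ℕ, m < n + 1 →
      IntervalIntegrable (fun t => om t1 t2 t * g t) MeasureTheory.volume (s m) (s (m + 1)) :=
    fun m hm => (hf.mono (hin m hm)).intervalIntegrable_of_Icc (hle m)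
  have hpos : ∀ t ∈ Set.Icc t1 t2, 0 ≤ om t1 t2 t * g t := by
    intro t ht
    refine mul_nonneg ?_ (hg0 t ht)
    unfold om
    exact mul_nonneg (by linarith [ht.1]) (by linarith [ht.2])
  refine ⟨(Finset.range (n + 1)).filter fun m => ∃ t ∈ Set.Icc (s m) (s (m + 1)), t ∈ E, ?_, ?_⟩
  · intro t hgt
    have ht := (hE t hgt).1
    have h3 : 0 ≤ (t - a) / r := div_nonneg (by linarith [ht.1]) hr.le
    have h4 := Nat.floor_le h3
    have h5 := Nat.lt_floor_add_one ((t - a) / r)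
    obtain ⟨m, hm⟩ : ∃ m : ℕ, m = ⌊(t - a) / r⌋₊ := ⟨_, rfl⟩
    rw [← hm] at h4 h5
    rw [le_div_iff₀ hr] at h4
    rw [div_lt_iff₀ hr] at h5
    have h6 : t ∈ Set.Icc (a + m * r) (a + (m + 1) * r) := ⟨by linarith, by linarith⟩
    have h7 : m ≤ n := by
      rw [hm, hn]
      exact Nat.floor_le_floor (div_le_div_of_nonneg_right (by linarith [ht.2]) hr.le)
    refine Set.mem_iUnion₂.2 ⟨m, ?_, h6⟩
    rw [Finset.mem_filter, Finset.mem_range]
    refine ⟨by omega, t, ?_, hgt⟩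
    rw [hs, hs1]
    exact h6
  · obtain ⟨c, hc⟩ : ∃ c : ℝ, c = (a - t1) * (t2 - b) / 4 * T := ⟨_, rfl⟩
    have hcc : ∀ x : ℝ, x * r * ((a - t1) * (t2 - b) / 4) * T = x * (r * c) := by
      intro x
      rw [hc]
      ring
    rw [hcc]
    have h3 : ∑ m ∈ Finset.range (n + 1), ∫ t in (s m)..(s (m + 1)), om t1 t2 t * g t =
        ∫ t in (s 0)..(s (n + 1)), om t1 t2 t * g t :=
      intervalIntegral.sum_integral_adjacent_intervals hint
    have h4 : ∫ t in (s 0)..(s (n + 1)), om t1 t2 t * g t ≤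
        ∫ t in t1..t2, om t1 t2 t * g t := by
      refine intervalIntegral.integral_mono_interval (by linarith [hlo 0])
        ((hlo (n + 1)).trans' ?_) (by linarith [hup n (by omega)]) ?_
        (hf.intervalIntegrable_of_Icc (by linarith))
      · rw [hs]
        simp
      · refine (MeasureTheory.ae_restrict_iff' measurableSet_Ioc).2
          (MeasureTheory.ae_of_all _ fun t ht => ?_)
        exact hpos t ⟨ht.1.le, ht.2⟩
    have h5 : ∀ m ∈ (Finset.range (n + 1)).filter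
        (fun m => ∃ t ∈ Set.Icc (s m) (s (m + 1)), t ∈ E),
        r * c ≤ ∫ t in (s m)..(s (m + 1)), om t1 t2 t * g t := by
      intro m hm
      rw [Finset.mem_filter, Finset.mem_range] at hm
      obtain ⟨hm, t0, ht0, hg1⟩ := hm
      have h6 : ∫ _ in (s m)..(s (m + 1)), c = r * c := by
        rw [intervalIntegral.integral_const, smul_eq_mul, hs1, hs]
        ring
      rw [← h6]
      refine intervalIntegral.integral_mono_on (hle m) intervalIntegrable_const (hint m hm)
        fun t ht => ?_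
      have h7 := hs m
      have h8 := hs1 m
      have h9 := hlo m
      have h10 := hup m hm
      have h11 : |t0 - t| ≤ r := by
        rw [abs_le]
        constructor
        · linarith [ht.2, ht0.1]
        · linarith [ht.1, ht0.2]
      have h13 : T ≤ g t := (hE t0 hg1).2 t (hin m hm ht) h11
      have h14 : (a - t1) * (t2 - b) / 2 ≤ om t1 t2 t := by
        unfold om
        have h15 : a - t1 ≤ t - t1 := by linarith [ht.1]
        have h16 : (t2 - b) / 2 ≤ t2 - t := by linarith [ht.2]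
        have h17 : 0 ≤ (t2 - b) / 2 := by linarith
        have h18 : 0 ≤ t - t1 := by linarith
        calc (a - t1) * (t2 - b) / 2 = (a - t1) * ((t2 - b) / 2) := by ring
          _ ≤ (t - t1) * (t2 - t) := mul_le_mul h15 h16 h17 h18
      have h19 : 0 ≤ (a - t1) * (t2 - b) / 2 :=
        div_nonneg (mul_nonneg (by linarith) (by linarith)) (by norm_num)
      have h22 : 0 ≤ (a - t1) * (t2 - b) / 2 * T := mul_nonneg h19 hT
      calc c = (a - t1) * (t2 - b) / 2 * T / 2 := by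
            rw [hc]
            ring
        _ ≤ (a - t1) * (t2 - b) / 2 * T := by linarith
        _ ≤ om t1 t2 t * g t := mul_le_mul h14 h13 hT (h19.trans h14)
    have h20 : ∑ m ∈ (Finset.range (n + 1)).filter
        (fun m => ∃ t ∈ Set.Icc (s m) (s (m + 1)), t ∈ E),
        ∫ t in (s m)..(s (m + 1)), om t1 t2 t * g t ≤
        ∑ m ∈ Finset.range (n + 1), ∫ t in (s m)..(s (m + 1)), om t1 t2 t * g t := by
      refine Finset.sum_le_sum_of_subset_of_nonneg (Finset.filter_subset _ _) fun m hm _ => ?_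
      exact intervalIntegral.integral_nonneg (hle m) fun t ht =>
        hpos t (hin m (Finset.mem_range.1 hm) ht)
    have h21 := Finset.card_nsmul_le_sum _ _ _ h5
    rw [nsmul_eq_mul] at h21
    linarith

end Pool.Agent.Lib.MP_570bef_ntXD
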