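import Mathlib
import Pool.Agent.Lib.MP_570bef_ntM.Defs
import Pool.Agent.Lib.MP_570bef_ntRE.Fam

/-!
# Waring's problem with real exponents, exceptional sets of small dimension: definitions

`QQ w X v` is the square integral of `y ↦ ∑_{x ∈ X} ind w (y - v x)`, `ind w` the normalised indicator of `[0, w)`.
`vl t x = S x.1 t + S x.2 t`. `sc s n l P j = (4 s + 2) P^(l (1 - j/n))`: the scales, from `(4 s + 2) P^l` (`j = 0`) down to `4 s + 2` (`j = n`).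
-/

set_option autoImplicit false

namespace Pool.Agent.Lib.MP_570bef_ntXD

open Finset MeasureTheory
open Pool.Agent.Lib.MP_570bef_ntRE (ind En U S XX om kap)

/-- square integral of the normalised counting function at scale `w` -/
noncomputable def QQ {ι : Type*} (w : ℝ) (X : Finset ι) (v : ι → ℝ) : ℝ :=
  ∫ y : ℝ, (∑ x ∈ X, ind w (y - v x)) ^ 2

/-- the value of a pair of tuples, exponent `t` -/
noncomputable def vl {s : ℕ} (t : ℝ) (x : (Fin s → ℕ) × (Fin s → ℕ)) : ℝ := S x.1 t + S x.2 t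

/-- the scales -/
noncomputable def sc (s n : ℕ) (l P : ℝ) (j : ℕ) : ℝ := (4 * s + 2) * P ^ (l * (1 - (j : ℝ) / n))

/-- conditions on the parameters of the blocks -/
structure PB (s : ℕ) (p q σ b : ℝ) : Prop where
  hs : 1 ≤ s
  hp : 1 < p
  hpq : p < q
  hq : q ≤ p + 1
  hσ : 0 < σ
  hσb : σ < b
  hb : b < 1
  gap : σ * p < p - 1

/-- exponent of the number of pairs of tuples -/
noncomputable def mu (s : ℕ) (σ b : ℝ) : ℝ := (1 + b) * ((1 - σ ^ s) / (1 - σ))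

/-- exponent in the spacing sum `sumK` -/
noncomputable def be (s : ℕ) (p σ : ℝ) : ℝ := (p - 1) * σ ^ s / σ

/-- conditions on the exponents -/
structure PX (s n : ℕ) (p q σ b l d r δ κ : ℝ) : Prop where
  hn : 1 ≤ n
  hl : 0 < l
  hlq : l < q
  hd : 0 < d
  hd1 : d ≤ 1
  hr : 0 < r
  hδ : 0 < δ
  hδb : δ ≤ b * be s p σ
  hκ : 0 < κ
  e1 : l - mu s σ b + (1 - d) * (q + r) + κ ≤ 0
  e3 : l - mu s σ b + (q - p) + l / n + 2 * δ - (1 + b) * be s p σ + (1 - d) * (q + r) + d * l + κ ≤ 0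

/-- pair bounds and Lipschitz bound, for all scales `ε ≤ L` -/
structure FU (s : ℕ) (p q σ b r K P1 : ℝ) : Prop where
  hK : 0 ≤ K
  hP1 : 1 ≤ P1
  lip : ∀ P ≥ P1, ∀ x ∈ XX s σ b P, ∀ t ∈ Set.Icc p q, ∀ t' ∈ Set.Icc p q,
    |vl t x - vl t' x| ≤ P ^ (q + r) * |t - t'|
  one : ∀ P ≥ P1, ∀ ε L : ℝ, 0 < ε → ε ≤ L →
    ∀ u ∈ U s σ 1 P, ∀ u' ∈ U s σ 1 P, ∀ v ∈ U s σ b P, u ≠ u' →
    |∫ t in p..q, om p q t * kap ε L (vl t (u, v) - vl t (u', v))| ≤ K * (1 / |S u p - S u' p|)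
  two : ∀ P ≥ P1, ∀ ε L : ℝ, 0 < ε → ε ≤ L →
    ∀ u ∈ U s σ 1 P, ∀ v ∈ U s σ b P, ∀ v' ∈ U s σ b P, v ≠ v' →
    |∫ t in p..q, om p q t * kap ε L (vl t (u, v) - vl t (u, v'))| ≤ K * (1 / |S v p - S v' p|)
  three : ∀ P ≥ P1, ∀ ε L : ℝ, 0 < ε → ε ≤ L →
    ∀ u ∈ U s σ 1 P, ∀ u' ∈ U s σ 1 P, ∀ v ∈ U s σ b P, ∀ v' ∈ U s σ b P, u ≠ u' → v ≠ v' →
    |∫ t in p..q, om p q t * kap ε L (vl t (u, v) - vl t (u', v'))| ≤
      K * P ^ (q - p) * L * (1 / |S u p - S u' p| * (1 / |S v p - S v' p|))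

open Pool.Agent.Lib.MP_570bef_ntM in
/-- the second moment statement, exceptional sets of dimension less than `D` -/
def SMD : Prop :=
  ∀ (s : ℕ) (θ₀ η D : ℝ), 1 < θ₀ → D ≤ 1 → 2 * (1 - 1 / θ₀) ^ s < D → 0 < η →
    ∃ ε : ℝ, 0 < ε ∧ ∃ Z : Set ℝ, dimH Z < ENNReal.ofReal D ∧
      ∀ θ ∈ Set.Ioo (θ₀ - ε) (θ₀ + ε), θ ∉ Z →
        ∃ (T : ℕ → Finset ((Fin s → ℕ) × (Fin s → ℕ))) (C : ℝ), ∀ᶠ m : ℕ in Filter.atTop,
          (T m).Nonempty ∧ (∀ t ∈ T m, (val θ t : ℝ) ≤ C * ((2 : ℝ) ^ m) ^ θ) ∧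
          (JT (T m) (val θ) : ℝ) ≤ (#(T m) : ℝ) ^ 2 * ((2 : ℝ) ^ m) ^ (-θ + η)

end Pool.Agent.Lib.MP_570bef_ntXD
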