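import Mathlib
import Pool.Agent.Lib.MP_570bef_ntXD.Defs
import Pool.Agent.Lib.MP_570bef_ntRE.Kap
import Pool.Agent.Lib.MP_570bef_ntRE.SumK
import Pool.Agent.Lib.MP_570bef_ntRE.Avg
import Pool.Agent.Lib.MP_570bef_ntRE.Stat

/-!
# LEAF EU: the mean of the energy

See `int_bound` in `MP_570bef_ntRE/IntB.lean`. `en_cont`: every `t ↦ vl t x` is continuous on `[p, q]` (`FU.lip`), `kap ε L` is continuous (`kap_cont`), finite sums.
`en_bound`: the integral is `∑ x, ∑ x', J x x'` (integral of a finite sum, `IntB_int`), `≤ ∑ ∑ |J|`, and `avg` with `A = U s σ 1 P`, `B = U s σ b P`, `eA u u' = 1/|S u p - S u' p|`, `eB` likewise, `D = 2/ε` (`triv`, `kap_le`; `q ≤ p + 1`),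
`C = K`, `M = K P^(q-p) L`, `K1 = P^(δ - be)`, `K2 = P^(δ - b be)` from `sumK` (with its `b = 1` and `b`).
-/

set_option autoImplicit false

namespace Pool.Agent.Lib.MP_570bef_ntXD

open Finset MeasureTheory
open Pool.Agent.Lib.MP_570bef_ntRE

private theorem EU_val_cont {s : ℕ} {p q σ b r K P1 P : ℝ} (hF : FU s p q σ b r K P1) (hP : P1 ≤ P)
    {x : (Fin s → ℕ) × (Fin s → ℕ)} (hx : x ∈ XX s σ b P) :
    ContinuousOn (fun t => vl t x) (Set.Icc p q) := by
  have hP0 : 0 < P := by linarith [hF.hP1]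
  rw [Metric.continuousOn_iff]
  intro t ht e he
  have hC : 0 < P ^ (q + r) := Real.rpow_pos_of_pos hP0 _
  refine ⟨e / P ^ (q + r), by positivity, ?_⟩
  intro t' ht' hd
  rw [Real.dist_eq] at hd ⊢
  calc |vl t' x - vl t x| ≤ P ^ (q + r) * |t' - t| := hF.lip P hP x hx t' ht' t ht
    _ < P ^ (q + r) * (e / P ^ (q + r)) := by gcongr
    _ = e := by field_simp

private theorem EU_ii {s : ℕ} {p q σ b r K P1 P : ℝ} (hpq : p < q) (hF : FU s p q σ b r K P1)
    (hP : P1 ≤ P) (ε L : ℝ) {x x' : (Fin s → ℕ) × (Fin s → ℕ)} (hx : x ∈ XX s σ b P)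
    (hx' : x' ∈ XX s σ b P) :
    IntervalIntegrable (fun t => om p q t * kap ε L (vl t x - vl t x')) volume p q := by
  apply ContinuousOn.intervalIntegrable
  rw [Set.uIcc_of_le hpq.le]
  apply ContinuousOn.mul
  · exact (by unfold om; fun_prop : Continuous (om p q)).continuousOn
  · exact (kap_cont ε L).comp_continuousOn ((EU_val_cont hF hP hx).sub (EU_val_cont hF hP hx'))

private theorem EU_int {s : ℕ} {p q σ b r K P1 P : ℝ} (hpq : p < q) (hF : FU s p q σ b r K P1)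
    (hP : P1 ≤ P) (ε L : ℝ) :
    ∫ t in p..q, om p q t * En ε L (XX s σ b P) (vl t) =
      ∑ x ∈ XX s σ b P, ∑ x' ∈ XX s σ b P, ∫ t in p..q, om p q t * kap ε L (vl t x - vl t x') := by
  have e : ∀ t, om p q t * En ε L (XX s σ b P) (vl t) =
      ∑ x ∈ XX s σ b P, ∑ x' ∈ XX s σ b P, om p q t * kap ε L (vl t x - vl t x') := by
    intro t
    unfold En
    rw [Finset.mul_sum]
    refine Finset.sum_congr rfl fun x _ => ?_
    rw [Finset.mul_sum]
  simp_rw [e]
  rw [intervalIntegral.integral_finsetSum]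
  · refine Finset.sum_congr rfl fun x hx => ?_
    rw [intervalIntegral.integral_finsetSum]
    intro x' hx'
    exact EU_ii hpq hF hP ε L hx hx'
  · intro x hx
    have h1 := IntervalIntegrable.sum (μ := volume) (a := p) (b := q) (XX s σ b P)
      (f := fun x' t => om p q t * kap ε L (vl t x - vl t x'))
      (fun x' hx' => EU_ii hpq hF hP ε L hx hx')
    exact h1.congr (fun t _ => by simp)

theorem en_cont {s : ℕ} {p q σ b r K P1 : ℝ} (hF : FU s p q σ b r K P1) {P : ℝ} (hP : P1 ≤ P)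
    (ε L : ℝ) :
    ContinuousOn (fun t : ℝ => En ε L (XX s σ b P) (vl t)) (Set.Icc p q) := by
  unfold En
  refine continuousOn_finsetSum _ fun x hx => continuousOn_finsetSum _ fun x' hx' => ?_
  exact (kap_cont ε L).comp_continuousOn ((EU_val_cont hF hP hx).sub (EU_val_cont hF hP hx'))

theorem en_bound {s : ℕ} {p q σ b r K P1 : ℝ} (h : PB s p q σ b) (hF : FU s p q σ b r K P1)
    {δ : ℝ} (hδ : 0 < δ) :
    ∃ P0 : ℝ, P1 ≤ P0 ∧ ∀ P ≥ P0, ∀ ε L : ℝ, 0 < ε → ε ≤ L →
      ∫ t in p..q, om p q t * En ε L (XX s σ b P) (vl t) ≤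
        ((XX s σ b P).card : ℝ) * (2 / ε + K * P ^ (δ - be s p σ) + K * P ^ (δ - b * be s p σ) +
          K * P ^ (q - p) * L * (P ^ (δ - be s p σ) * P ^ (δ - b * be s p σ))) := by
  have hσ := h.hσ
  have hb0 : 0 < b := hσ.trans h.hσb
  have hp := h.hp
  have hK := hF.hK
  obtain ⟨Pa, hPa1, hPa⟩ := sumK s hσ hp h.gap 1 one_pos le_rfl δ hδ
  obtain ⟨Pb, hPb1, hPb⟩ := sumK s hσ hp h.gap b hb0 h.hb.le δ hδ
  refine ⟨max P1 (max Pa Pb), le_max_left _ _, fun P hP ε L hε hL => ?_⟩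
  have hP1 : P1 ≤ P := (le_max_left _ _).trans hP
  have hPa' : Pa ≤ P := (le_max_left _ _).trans ((le_max_right _ _).trans hP)
  have hPb' : Pb ≤ P := (le_max_right _ _).trans ((le_max_right _ _).trans hP)
  have hP01 : 1 ≤ P := hPa1.trans hPa'
  have hPpos : 0 < P := by linarith
  have hL0 : 0 ≤ L := hε.le.trans hL
  rw [EU_int h.hpq hF hP1]
  have hav := avg (U s σ 1 P) (U s σ b P)
    (fun x x' => ∫ t in p..q, om p q t * kap ε L (vl t x - vl t x'))
    (fun u u' => 1 / |S u p - S u' p|) (fun v v' => 1 / |S v p - S v' p|)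
    (D := 2 / ε) (C := K) (M := K * P ^ (q - p) * L)
    (K1 := P ^ (δ - 1 * (p - 1) * σ ^ s / σ)) (K2 := P ^ (δ - b * (p - 1) * σ ^ s / σ))
    hK (by positivity) (by positivity) (fun u u' => by positivity) (fun v v' => by positivity)
    (fun u _ v _ => triv h.hpq h.hq ε L _ (fun t _ => kap_le hε hL _))
    (fun u hu u' hu' v hv hne => hF.one P hP1 ε L hε hL u hu u' hu' v hv hne)
    (fun u hu v hv v' hv' hne => hF.two P hP1 ε L hε hL u hu v hv v' hv' hne)
    (fun u hu u' hu' v hv v' hv' hne hne' => hF.three P hP1 ε L hε hL u hu u' hu' v hv v' hv' hne hne')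
    (hPa P hPa') (hPb P hPb')
  have hk1 : δ - 1 * (p - 1) * σ ^ s / σ = δ - be s p σ := by
    unfold be
    rw [one_mul]
  have hk2 : δ - b * (p - 1) * σ ^ s / σ = δ - b * be s p σ := by
    unfold be
    ring
  rw [hk1, hk2] at hav
  have hcard : ((XX s σ b P).card : ℝ) = ((U s σ 1 P).card : ℝ) * (U s σ b P).card := by
    unfold XX
    rw [Finset.card_product]
    push_cast
    ring
  rw [hcard]
  exact (Finset.sum_le_sum fun x _ => Finset.sum_le_sum fun x' _ => le_abs_self _).trans hav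

end Pool.Agent.Lib.MP_570bef_ntXD
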