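import Mathlib
import Pool.Agent.Lib.MP_570bef_ntXD.Defs
import Pool.Agent.Lib.MP_570bef_ntRE.Blk

/-!
# LEAF EX: the exponents

Put `W = 4 s + 2 ≥ 2`, `N0 = card XX ≥ P^mu` (`XX = U s σ 1 P ×ˢ U s σ b P`, `U_card_ge` with `b = 1` and `b`; `mu = (1 + b) A`, `A = (1 - σ^s)/(1 - σ)`), `l' = l (1 - (j+1)/n) ∈ [0, l - l/n]`, `l (1 - j/n) = l' + l/n`,
`rho = q + r - l' > 0`, `B = be s p σ > 0`. The hypothesis divided by `N0² c/(W P^l)` and multiplied by `P^(-rho)^(d - 1) = P^((1-d) rho)`: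
`N (P^(-rho))^d ≤ (W/c) P^l P^(-mu) P^((1-d) rho) (2/(3 W) P^(-l') + K P^(δ-B) + K P^(δ-bB) + K W P^(q-p+l'+l/n+2δ-(1+b)B))`.
Every term is `≤ const * P^(-κ)` for `P ≥ 1`: first: `l - mu - l' + (1-d)(q+r-l') ≤ l - mu + (1-d)(q+r) ≤ -κ` (`PX.e1`); second and third: `δ - B ≤ δ - bB ≤ 0` (`PX.hδb`, `b < 1`) and `PX.e1`; fourth: the exponent is
`l - mu + (q-p) + l/n + 2δ - (1+b)B + (1-d)(q+r) + d l' ≤ -κ` by `l' ≤ l` and `PX.e3`. (`Real.rpow_le_rpow_of_exponent_le`.) So `C = (W/c)(2/(3W) + 2K + K W)`.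
-/

set_option autoImplicit false

namespace Pool.Agent.Lib.MP_570bef_ntXD

open Pool.Agent.Lib.MP_570bef_ntRE (XX U)

private theorem EX_card {s : ℕ} {p q σ b : ℝ} (hB : PB s p q σ b) {P : ℝ} (hP : 1 ≤ P) :
    P ^ (mu s σ b) ≤ (XX s σ b P).card := by
  have hσ1 : σ < 1 := hB.hσb.trans hB.hb
  have hb0 : 0 ≤ b := (hB.hσ.trans hB.hσb).le
  have h1 := Pool.Agent.Lib.MP_570bef_ntRE.U_card_ge s hB.hσ hσ1 zero_le_one hP
  have h2 := Pool.Agent.Lib.MP_570bef_ntRE.U_card_ge s hB.hσ hσ1 hb0 hP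
  have h0 : 0 < P := lt_of_lt_of_le one_pos hP
  unfold XX mu
  rw [Finset.card_product, Nat.cast_mul, add_mul, Real.rpow_add h0]
  exact mul_le_mul h1 h2 (Real.rpow_nonneg h0.le _) (Nat.cast_nonneg _)

private theorem EX_div {A X Y B : ℝ} (hX : 0 < X) (hY : 0 < Y) (h : A * (X ^ 2 / Y) ≤ X * B) :
    A * X ≤ Y * B := by
  have e : A * (X ^ 2 / Y) = A * X ^ 2 / Y := by ring
  rw [e, div_le_iff₀ hY] at h
  refine le_of_mul_le_mul_right (?_ : A * X * X ≤ Y * B * X) hX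
  calc A * X * X = A * X ^ 2 := by ring
    _ ≤ X * B * Y := h
    _ = Y * B * X := by ring

theorem exp_bound {s n : ℕ} {p q σ b l d r δ κ K c : ℝ} (hB : PB s p q σ b)
    (hX : PX s n p q σ b l d r δ κ) (hK : 0 ≤ K) (hc : 0 < c) :
    ∃ C : ℝ, 0 ≤ C ∧ ∀ P : ℝ, 1 ≤ P → ∀ j < n, ∀ N : ℝ, 0 ≤ N →
      N * P ^ (-(q + r - l * (1 - ((j + 1 : ℕ) : ℝ) / n))) * c *
        (((XX s σ b P).card : ℝ) ^ 2 / sc s n l P 0) ≤
        ((XX s σ b P).card : ℝ) * (2 / (3 * sc s n l P (j + 1)) + K * P ^ (δ - be s p σ) +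
          K * P ^ (δ - b * be s p σ) + K * P ^ (q - p) * sc s n l P j *
            (P ^ (δ - be s p σ) * P ^ (δ - b * be s p σ))) →
      N * (P ^ (-(q + r - l * (1 - ((j + 1 : ℕ) : ℝ) / n)))) ^ d ≤ C * P ^ (-κ) := by
  have hσ1 : σ < 1 := hB.hσb.trans hB.hb
  have hb0 : 0 < b := hB.hσ.trans hB.hσb
  have hb1 : b < 1 := hB.hb
  obtain ⟨hn, hl, hlq, hd, hd1, hr, hδ, hδb, hκ, e1, e3⟩ := hX
  have hbe : 0 < be s p σ := by
    unfold be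
    exact div_pos (mul_pos (by linarith [hB.hp]) (pow_pos hB.hσ s)) hB.hσ
  obtain ⟨Be, hBe⟩ : ∃ Be, Be = be s p σ := ⟨_, rfl⟩
  obtain ⟨Mu, hMu⟩ : ∃ Mu, Mu = mu s σ b := ⟨_, rfl⟩
  rw [← hBe] at hbe hδb e3 ⊢
  rw [← hMu] at e1 e3
  have hW : (0 : ℝ) < 4 * s + 2 := by positivity
  obtain ⟨W, hWd⟩ : ∃ W : ℝ, W = 4 * s + 2 := ⟨_, rfl⟩
  rw [← hWd] at hW
  refine ⟨W / c * (2 / (3 * W) + K + K + K * W), by positivity, ?_⟩
  intro P hP j hj N hN H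
  have h0 : 0 < P := lt_of_lt_of_le one_pos hP
  have hnR : (0 : ℝ) < n := by exact_mod_cast hn
  obtain ⟨l', hl'⟩ : ∃ l', l' = l * (1 - ((j + 1 : ℕ) : ℝ) / n) := ⟨_, rfl⟩
  have hl0 : 0 ≤ l' := by
    rw [hl']
    refine mul_nonneg hl.le ?_
    rw [sub_nonneg, div_le_one hnR]
    exact_mod_cast hj
  have hl1 : l' ≤ l := by
    have h1 : 0 ≤ ((j + 1 : ℕ) : ℝ) / n := by positivity
    have h2 := mul_nonneg hl.le h1
    have h3 : l' = l - l * (((j + 1 : ℕ) : ℝ) / n) := by rw [hl']; ring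
    linarith
  have hlj : l * (1 - (j : ℝ) / n) = l' + l / n := by
    rw [hl', Nat.cast_add, Nat.cast_one]
    ring
  have hsc0 : sc s n l P 0 = W * P ^ l := by
    unfold sc
    rw [Nat.cast_zero, zero_div, sub_zero, mul_one, hWd]
  have hscj : sc s n l P j = W * P ^ (l' + l / n) := by
    unfold sc
    rw [hlj, hWd]
  have hscj1 : sc s n l P (j + 1) = W * P ^ l' := by
    unfold sc
    rw [← hl', hWd]
  rw [← hl', hsc0, hscj, hscj1] at H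
  rw [← hl']
  obtain ⟨X, hXd⟩ : ∃ X : ℝ, X = ((XX s σ b P).card : ℝ) := ⟨_, rfl⟩
  have hX1 : P ^ Mu ≤ X := by
    rw [hXd, hMu]
    exact EX_card hB hP
  rw [← hXd] at H
  have hmu : 0 < P ^ Mu := Real.rpow_pos_of_pos h0 _
  have hX0 : 0 < X := lt_of_lt_of_le hmu hX1
  have hWP : 0 < W * P ^ l := mul_pos hW (Real.rpow_pos_of_pos h0 _)
  have H1 := EX_div hX0 hWP H
  obtain ⟨ρ, hρ⟩ : ∃ ρ, ρ = q + r - l' := ⟨_, rfl⟩
  rw [← hρ] at H1 ⊢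
  have hA : 0 ≤ N * P ^ (-ρ) * c := mul_nonneg (mul_nonneg hN (Real.rpow_nonneg h0.le _)) hc.le
  have H2 : N * P ^ (-ρ) * c * P ^ Mu ≤ W * P ^ l * (2 / (3 * (W * P ^ l')) + K * P ^ (δ - Be) +
      K * P ^ (δ - b * Be) + K * P ^ (q - p) * (W * P ^ (l' + l / n)) *
        (P ^ (δ - Be) * P ^ (δ - b * Be))) :=
    (mul_le_mul_of_nonneg_left hX1 hA).trans H1
  -- the four exponents
  have hx : ∀ x : ℝ, x ≤ -κ → P ^ x ≤ P ^ (-κ) := fun x hx => Real.rpow_le_rpow_of_exponent_le hP hx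
  have hd1' : 0 ≤ 1 - d := by linarith
  have k0 : (1 - d) * ρ = (1 - d) * (q + r) - (1 - d) * l' := by rw [hρ]; ring
  have k1 : 0 ≤ (1 - d) * l' := mul_nonneg hd1' hl0
  have k2 : d * l' ≤ d * l := mul_le_mul_of_nonneg_left hl1 hd.le
  have k3 : b * Be ≤ Be := by nlinarith
  have k4 : (1 - d) * l' = l' - d * l' := by ring
  have x1 : P ^ (l + (1 - d) * ρ - Mu - l') ≤ P ^ (-κ) := hx _ (by linarith)
  have x2 : P ^ (l + (1 - d) * ρ - Mu + (δ - Be)) ≤ P ^ (-κ) := hx _ (by linarith)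
  have x3 : P ^ (l + (1 - d) * ρ - Mu + (δ - b * Be)) ≤ P ^ (-κ) := hx _ (by linarith)
  have x4 : P ^ (l + (1 - d) * ρ - Mu + (q - p) + (l' + l / n) + (δ - Be) + (δ - b * Be)) ≤
      P ^ (-κ) := hx _ (by linarith)
  -- the product
  have g0 : P ^ (-ρ) * P ^ ((1 - d) * ρ) = (P ^ (-ρ)) ^ d := by
    rw [← Real.rpow_add h0, ← Real.rpow_mul h0.le]
    congr 1
    ring
  have g1 : P ^ Mu * P ^ (-Mu) = 1 := by
    rw [← Real.rpow_add h0, add_neg_cancel, Real.rpow_zero]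
  have hG0 : 0 ≤ P ^ ((1 - d) * ρ) * P ^ (-Mu) / c :=
    div_nonneg (mul_nonneg (Real.rpow_nonneg h0.le _) (Real.rpow_nonneg h0.le _)) hc.le
  have H3 := mul_le_mul_of_nonneg_right H2 hG0
  have e5 : N * P ^ (-ρ) * c * P ^ Mu * (P ^ ((1 - d) * ρ) * P ^ (-Mu) / c) =
      N * (P ^ (-ρ)) ^ d := by
    calc N * P ^ (-ρ) * c * P ^ Mu * (P ^ ((1 - d) * ρ) * P ^ (-Mu) / c) =
        N * (P ^ (-ρ) * P ^ ((1 - d) * ρ)) * (P ^ Mu * P ^ (-Mu)) * (c / c) := by ring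
      _ = N * (P ^ (-ρ)) ^ d := by rw [g0, g1, div_self hc.ne', mul_one, mul_one]
  rw [e5] at H3
  refine H3.trans ?_
  have y1 : P ^ l * P ^ ((1 - d) * ρ) * P ^ (-Mu) = P ^ (l + (1 - d) * ρ - Mu) := by
    rw [← Real.rpow_add h0, ← Real.rpow_add h0]
    rfl
  have y2 : P ^ (l + (1 - d) * ρ - Mu) * (P ^ l')⁻¹ = P ^ (l + (1 - d) * ρ - Mu - l') := by
    rw [← Real.rpow_neg h0.le, ← Real.rpow_add h0]
    rfl
  have y3 : P ^ (l + (1 - d) * ρ - Mu) * P ^ (δ - Be) = P ^ (l + (1 - d) * ρ - Mu + (δ - Be)) := by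
    rw [← Real.rpow_add h0]
  have y4 : P ^ (l + (1 - d) * ρ - Mu) * P ^ (δ - b * Be) =
      P ^ (l + (1 - d) * ρ - Mu + (δ - b * Be)) := by
    rw [← Real.rpow_add h0]
  have y5 : P ^ (l + (1 - d) * ρ - Mu) * P ^ (q - p) * P ^ (l' + l / n) * P ^ (δ - Be) *
      P ^ (δ - b * Be) =
      P ^ (l + (1 - d) * ρ - Mu + (q - p) + (l' + l / n) + (δ - Be) + (δ - b * Be)) := by
    rw [← Real.rpow_add h0, ← Real.rpow_add h0, ← Real.rpow_add h0, ← Real.rpow_add h0]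
  have hWc : 0 ≤ W / c := div_nonneg hW.le hc.le
  calc W * P ^ l * (2 / (3 * (W * P ^ l')) + K * P ^ (δ - Be) +
      K * P ^ (δ - b * Be) + K * P ^ (q - p) * (W * P ^ (l' + l / n)) *
        (P ^ (δ - Be) * P ^ (δ - b * Be))) * (P ^ ((1 - d) * ρ) * P ^ (-Mu) / c)
      = W / c * (2 / (3 * W) * ((P ^ l * P ^ ((1 - d) * ρ) * P ^ (-Mu)) * (P ^ l')⁻¹) +
        K * ((P ^ l * P ^ ((1 - d) * ρ) * P ^ (-Mu)) * P ^ (δ - Be)) +
        K * ((P ^ l * P ^ ((1 - d) * ρ) * P ^ (-Mu)) * P ^ (δ - b * Be)) +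
        K * W * ((P ^ l * P ^ ((1 - d) * ρ) * P ^ (-Mu)) * P ^ (q - p) * P ^ (l' + l / n) *
          P ^ (δ - Be) * P ^ (δ - b * Be))) := by
        rw [← mul_assoc 3 W, ← div_div 2 (3 * W), div_eq_mul_inv (2 / (3 * W)) (P ^ l')]
        ring
    _ = W / c * (2 / (3 * W) * P ^ (l + (1 - d) * ρ - Mu - l') +
        K * P ^ (l + (1 - d) * ρ - Mu + (δ - Be)) +
        K * P ^ (l + (1 - d) * ρ - Mu + (δ - b * Be)) +
        K * W * P ^ (l + (1 - d) * ρ - Mu + (q - p) + (l' + l / n) + (δ - Be) +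
          (δ - b * Be))) := by
        rw [y1, y2, y3, y4, y5]
    _ ≤ W / c * (2 / (3 * W) * P ^ (-κ) + K * P ^ (-κ) + K * P ^ (-κ) + K * W * P ^ (-κ)) := by
        refine mul_le_mul_of_nonneg_left ?_ hWc
        refine add_le_add (add_le_add (add_le_add ?_ ?_) ?_) ?_
        · exact mul_le_mul_of_nonneg_left x1 (by positivity)
        · exact mul_le_mul_of_nonneg_left x2 hK
        · exact mul_le_mul_of_nonneg_left x3 hK
        · exact mul_le_mul_of_nonneg_left x4 (mul_nonneg hK hW.le)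
    _ = W / c * (2 / (3 * W) + K + K + K * W) * P ^ (-κ) := by ring

end Pool.Agent.Lib.MP_570bef_ntXD
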