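import Mathlib
import Pool.Agent.Lib.MP_570bef_ntRE.HDim

/-!
# LEAF HD: Hausdorff dimension of a limsup set

Copy the proof of `hdim_lemma` (`MP_570bef_ntRE/HDim.lean`) with `r j = ((2:ℝ)^j)^(-ρ)` and `d` given: the bound of one level is now directly the hypothesis `hcard` (`card (M j) * (r j)^d ≤ C q^j`, `q = 2^(-η) < 1`), so `hlev` is immediate; the rest is unchanged.
-/

set_option autoImplicit false

namespace Pool.Agent.Lib.MP_570bef_ntXD

open MeasureTheory

theorem hdim_d (E : ℕ → Set ℝ) {C η ρ d : ℝ} (hη : 0 < η) (hρ : 0 < ρ) (hd : 0 < d) (hC : 0 ≤ C)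
    (j0 : ℕ) (M : ℕ → Finset ℕ) (a : ℝ)
    (hcov : ∀ j ≥ j0, E j ⊆ ⋃ m ∈ M j, Set.Icc (a + m * ((2 : ℝ) ^ j) ^ (-ρ))
      (a + (m + 1) * ((2 : ℝ) ^ j) ^ (-ρ)))
    (hcard : ∀ j ≥ j0, ((M j).card : ℝ) * (((2 : ℝ) ^ j) ^ (-ρ)) ^ d ≤ C * ((2 : ℝ) ^ j) ^ (-η)) :
    dimH {t | ∀ J : ℕ, ∃ j ≥ J, t ∈ E j} ≤ ENNReal.ofReal d := by
  set r : ℕ → ℝ := fun j => ((2 : ℝ) ^ j) ^ (-ρ) with hr
  have hrpos : ∀ j, 0 < r j := fun j => by
    simp only [hr]
    positivity
  have hr2 : ∀ j, r j = (2 : ℝ) ^ (-ρ * j) := fun j => by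
    simp only [hr]
    rw [← Real.rpow_natCast, ← Real.rpow_mul (by norm_num)]
    congr 1
    ring
  set q : ℝ := (2 : ℝ) ^ (-η) with hqdef
  have hq0' : 0 < q := by positivity
  have hq1' : q < 1 := Real.rpow_lt_one_of_one_lt_of_neg (by norm_num) (by linarith)
  -- the bound of one level
  have hlev : ∀ j ≥ j0, ((M j).card : ℝ) * r j ^ d ≤ C * q ^ j := by
    intro j hj
    have e3 : ((2 : ℝ) ^ j) ^ (-η) = q ^ j := by
      rw [hqdef, ← Real.rpow_natCast, ← Real.rpow_natCast, ← Real.rpow_mul (by norm_num),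
        ← Real.rpow_mul (by norm_num)]
      congr 1
      ring
    rw [← e3]
    exact hcard j hj
  have hdn : ((Real.toNNReal d : NNReal) : ℝ) = d := Real.coe_toNNReal d hd.le
  have hmain : Measure.hausdorffMeasure (X := ℝ) d {t | ∀ J : ℕ, ∃ j ≥ J, t ∈ E j} = 0 := by
    let ι : ℕ → Type := fun J => Σ k : ℕ, {m : ℕ // m ∈ M (k + J)}
    let t : ∀ J : ℕ, ι J → Set ℝ := fun J i =>
      Set.Icc (a + (i.2 : ℕ) * r (i.1 + J)) (a + ((i.2 : ℕ) + 1) * r (i.1 + J))
    have hdiam : ∀ (J : ℕ) (i : ι J), Metric.ediam (t J i) = ENNReal.ofReal (r (i.1 + J)) := by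
      intro J i
      simp only [t]
      rw [Real.ediam_Icc]
      congr 1
      ring
    let R : ℕ → ENNReal := fun J => ENNReal.ofReal (r J)
    have hR : Filter.Tendsto R Filter.atTop (nhds 0) := by
      have h1 : Filter.Tendsto r Filter.atTop (nhds 0) := by
        have h2 : r = fun j : ℕ => ((2 : ℝ) ^ (-ρ)) ^ j := by
          funext j
          rw [hr2 j, ← Real.rpow_natCast, ← Real.rpow_mul (by norm_num)]
        rw [h2]
        exact tendsto_pow_atTop_nhds_zero_of_lt_one (by positivity)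
          (Real.rpow_lt_one_of_one_lt_of_neg (by norm_num) (by linarith))
      have h5 := ENNReal.tendsto_ofReal h1
      rwa [ENNReal.ofReal_zero] at h5
    have hanti : ∀ J k : ℕ, r (k + J) ≤ r J := by
      intro J k
      rw [hr2, hr2]
      refine Real.rpow_le_rpow_of_exponent_le (by norm_num) ?_
      have h1 : (J : ℝ) ≤ ((k + J : ℕ) : ℝ) := by exact_mod_cast Nat.le_add_left J k
      nlinarith
    have hle := Measure.hausdorffMeasure_le_liminf_tsum (X := ℝ) d
      {t | ∀ J : ℕ, ∃ j ≥ J, t ∈ E j} (l := Filter.atTop) R hR t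
      (Filter.Eventually.of_forall fun J i => by
        rw [hdiam]
        exact ENNReal.ofReal_le_ofReal (hanti J i.1))
      (by
        filter_upwards [Filter.eventually_ge_atTop j0] with J hJ x hx
        obtain ⟨j, hj, hxj⟩ := hx J
        have h1 := hcov j (le_trans hJ hj) hxj
        rw [Set.mem_iUnion₂] at h1
        obtain ⟨m, hm, hxm⟩ := h1
        obtain ⟨k, rfl⟩ : ∃ k, j = k + J := ⟨j - J, (Nat.sub_add_cancel hj).symm⟩
        exact Set.mem_iUnion.2 ⟨⟨k, ⟨m, hm⟩⟩, hxm⟩)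
    have hsum : ∀ J, ∑' i : ι J, Metric.ediam (t J i) ^ d =
        ∑' k : ℕ, ((M (k + J)).card : ENNReal) * ENNReal.ofReal (r (k + J)) ^ d := by
      intro J
      refine (ENNReal.tsum_sigma' (fun i : ι J => Metric.ediam (t J i) ^ d)).trans ?_
      refine tsum_congr fun k => ?_
      simp only [hdiam]
      rw [tsum_fintype, Finset.sum_const, Finset.card_univ, Fintype.card_coe, nsmul_eq_mul]
    let g : ℕ → ENNReal := fun j => ENNReal.ofReal (C * q ^ j)
    have hg : ∑' j, g j ≠ ⊤ := by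
      have h1 : Summable fun j : ℕ => C * q ^ j :=
        (summable_geometric_of_lt_one hq0'.le hq1').mul_left C
      exact h1.tsum_ofReal_ne_top
    have hg0 := ENNReal.tendsto_sum_nat_add g hg
    have hterm : ∀ J ≥ j0, ∑' i : ι J, Metric.ediam (t J i) ^ d ≤ ∑' k : ℕ, g (k + J) := by
      intro J hJ
      rw [hsum]
      refine ENNReal.tsum_le_tsum fun k => ?_
      rw [ENNReal.ofReal_rpow_of_pos (hrpos _), ← ENNReal.ofReal_natCast,
        ← ENNReal.ofReal_mul (Nat.cast_nonneg _)]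
      exact ENNReal.ofReal_le_ofReal (hlev (k + J) (le_trans hJ (Nat.le_add_left _ _)))
    have hlim : Filter.Tendsto (fun J => ∑' i : ι J, Metric.ediam (t J i) ^ d) Filter.atTop
        (nhds 0) := by
      refine tendsto_of_tendsto_of_tendsto_of_le_of_le' tendsto_const_nhds hg0
        (Filter.Eventually.of_forall fun J => zero_le) ?_
      filter_upwards [Filter.eventually_ge_atTop j0] with J hJ
      exact hterm J hJ
    rw [hlim.liminf_eq] at hle
    exact le_antisymm hle zero_le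
  refine dimH_le_of_hausdorffMeasure_ne_top ?_
  rw [hdn, hmain]
  exact ENNReal.zero_ne_top

end Pool.Agent.Lib.MP_570bef_ntXD
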