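import Mathlib
import Pool.Agent.Lib.MP_570bef_ntXD.EU
import Pool.Agent.Lib.MP_570bef_ntXD.CN
import Pool.Agent.Lib.MP_570bef_ntXD.HD
import Pool.Agent.Lib.MP_570bef_ntXD.EX
import Pool.Agent.Lib.MP_570bef_ntRE.L2

/-!
# LEAF ASa: the dimension of the set of bad exponents at one scale

`rho = q + r - l (1 - (j+1)/n) > 0` (`l (1 - (j+1)/n) ≤ l < q`). If `b' < a'` the set is empty (`dimH_empty`). For large `m`, `P = 2^m`, radius `ρ_m = (2^m)^(-rho) ≤ (q - b')/2`, `3 sc (j+1) ≤ sc j` (`3 ≤ P^(l/n)`): `count_w` with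
`t1 = p`, `t2 = q`, `a = a'`, `b = b'`, `r = ρ_m`, `T = card²/sc 0`, `g t = En (3 sc (j+1)) (sc j) XX (vl t)` (`≥ 0` by `En_nonneg`, continuous by `en_cont`), `E` = the set of one `m`, gives `M m`; `en_bound` with `ε = 3 sc (j+1)`, `L = sc j`
bounds the integral, and `exp_bound` with `c = (a' - p)(q - b')/4`, `N = card (M m)` gives `card (M m) (ρ_m)^d ≤ C P^(-κ)`. `hdim_d` with `η = κ`, `ρ = rho` (`M m = ∅` for small `m`).
-/

set_option autoImplicit false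

namespace Pool.Agent.Lib.MP_570bef_ntXD

open Pool.Agent.Lib.MP_570bef_ntRE

/-- bad exponents at the scale `j` -/
def bad (s n : ℕ) (p q σ b l r a' b' : ℝ) (j m : ℕ) : Set ℝ :=
  {t | t ∈ Set.Icc a' b' ∧ ∀ t' ∈ Set.Icc p q,
    |t - t'| ≤ ((2 : ℝ) ^ m) ^ (-(q + r - l * (1 - ((j + 1 : ℕ) : ℝ) / n))) →
    ((XX s σ b ((2 : ℝ) ^ m)).card : ℝ) ^ 2 / sc s n l ((2 : ℝ) ^ m) 0 ≤
      En (3 * sc s n l ((2 : ℝ) ^ m) (j + 1)) (sc s n l ((2 : ℝ) ^ m) j)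
        (XX s σ b ((2 : ℝ) ^ m)) (vl t')}

private theorem ASa_sc {s n : ℕ} {l P : ℝ} (hn : 1 ≤ n) (hP : 0 < P) (j : ℕ) :
    sc s n l P j = P ^ (l / n) * sc s n l P (j + 1) := by
  unfold sc
  have hn0 : (n : ℝ) ≠ 0 := by
    have : 0 < n := hn
    exact_mod_cast this.ne'
  have h1 : l * (1 - (j : ℝ) / n) = l / n + l * (1 - ((j + 1 : ℕ) : ℝ) / n) := by
    push_cast
    field_simp
    ring
  rw [h1, Real.rpow_add hP]
  ring

private theorem ASa_sc_pos {s n : ℕ} {l P : ℝ} (hP : 0 < P) (j : ℕ) : 0 < sc s n l P j := by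
  unfold sc
  have := Real.rpow_pos_of_pos hP (l * (1 - (j : ℝ) / n))
  positivity

theorem bad_dim {s n : ℕ} {p q σ b l d r δ κ K P1 a' b' : ℝ} (hB : PB s p q σ b)
    (hX : PX s n p q σ b l d r δ κ) (hF : FU s p q σ b r K P1) (ha : p < a') (hb : b' < q)
    {j : ℕ} (hj : j < n) :
    dimH {t | ∀ J : ℕ, ∃ m ≥ J, t ∈ bad s n p q σ b l r a' b' j m} ≤ ENNReal.ofReal d := by
  rcases lt_or_ge b' a' with hab | hab
  · have h0 : {t | ∀ J : ℕ, ∃ m ≥ J, t ∈ bad s n p q σ b l r a' b' j m} = ∅ := by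
      ext t
      constructor
      · intro h
        obtain ⟨m, -, hm⟩ := h 0
        have h1 := hm.1
        exact absurd (h1.1.trans h1.2) (not_le.2 hab)
      · intro h
        exact absurd h (Set.notMem_empty t)
    rw [h0, dimH_empty]
    exact zero_le
  obtain ⟨ρ, hρ⟩ : ∃ ρ : ℝ, ρ = q + r - l * (1 - ((j + 1 : ℕ) : ℝ) / n) := ⟨_, rfl⟩
  have hn0 : (0 : ℝ) < n := by exact_mod_cast hX.hn
  have hρ0 : 0 < ρ := by
    have h1 : l * (1 - ((j + 1 : ℕ) : ℝ) / n) ≤ l := by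
      refine mul_le_of_le_one_right hX.hl.le ?_
      have : 0 ≤ ((j + 1 : ℕ) : ℝ) / n := by positivity
      linarith
    have h2 := hX.hlq
    have h3 := hX.hr
    rw [hρ]
    linarith
  have hc : 0 < (a' - p) * (q - b') / 4 := by
    have h1 : 0 < a' - p := by linarith
    have h2 : 0 < q - b' := by linarith
    positivity
  obtain ⟨P0, hP0, hen⟩ := en_bound hB hF hX.hδ
  obtain ⟨C, hC0, hex⟩ := exp_bound hB hX hF.hK hc
  have hT : Filter.Tendsto (fun m : ℕ => (2 : ℝ) ^ m) Filter.atTop Filter.atTop :=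
    tendsto_pow_atTop_atTop_of_one_lt one_lt_two
  have hln : 0 < l / n := div_pos hX.hl hn0
  have ev1 : ∀ᶠ m : ℕ in Filter.atTop, P0 ≤ (2 : ℝ) ^ m := hT.eventually_ge_atTop P0
  have ev2 : ∀ᶠ m : ℕ in Filter.atTop, 3 ≤ ((2 : ℝ) ^ m) ^ (l / n) :=
    ((tendsto_rpow_atTop hln).comp hT).eventually_ge_atTop 3
  have ev3 : ∀ᶠ m : ℕ in Filter.atTop, ((2 : ℝ) ^ m) ^ (-ρ) < (q - b') / 2 :=
    ((tendsto_rpow_neg_atTop hρ0).comp hT).eventually (gt_mem_nhds (by linarith))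
  obtain ⟨j0, hj0⟩ := Filter.eventually_atTop.1 (ev1.and (ev2.and ev3))
  have key : ∀ m : ℕ, ∃ M : Finset ℕ, j0 ≤ m →
      (bad s n p q σ b l r a' b' j m ⊆ ⋃ k ∈ M, Set.Icc (a' + k * ((2 : ℝ) ^ m) ^ (-ρ))
        (a' + (k + 1) * ((2 : ℝ) ^ m) ^ (-ρ))) ∧
      ((M.card : ℝ) * (((2 : ℝ) ^ m) ^ (-ρ)) ^ d ≤ C * ((2 : ℝ) ^ m) ^ (-κ)) := by
    intro m
    by_cases hm : j0 ≤ m
    swap
    · exact ⟨∅, fun h => absurd h hm⟩
    obtain ⟨h1, h2, h3⟩ := hj0 m hm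
    have hP : (0 : ℝ) < 2 ^ m := by positivity
    have hP1 : (1 : ℝ) ≤ 2 ^ m := one_le_pow₀ one_le_two
    have hs0 : 0 < 3 * sc s n l ((2 : ℝ) ^ m) (j + 1) := mul_pos (by norm_num) (ASa_sc_pos hP _)
    have hs1 : 3 * sc s n l ((2 : ℝ) ^ m) (j + 1) ≤ sc s n l ((2 : ℝ) ^ m) j := by
      rw [ASa_sc hX.hn hP j]
      exact mul_le_mul_of_nonneg_right h2 (ASa_sc_pos hP _).le
    obtain ⟨M, hM1, hM2⟩ := count_w ha hab hb (Real.rpow_pos_of_pos hP (-ρ)) h3.le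
      (T := ((XX s σ b ((2 : ℝ) ^ m)).card : ℝ) ^ 2 / sc s n l ((2 : ℝ) ^ m) 0)
      (div_nonneg (sq_nonneg _) (ASa_sc_pos hP _).le)
      (fun t => En (3 * sc s n l ((2 : ℝ) ^ m) (j + 1)) (sc s n l ((2 : ℝ) ^ m) j)
        (XX s σ b ((2 : ℝ) ^ m)) (vl t))
      (en_cont hF (hP0.trans h1) _ _) (fun t _ => En_nonneg hs0 hs1 _ _)
      (bad s n p q σ b l r a' b' j m) (fun t ht => by
        refine ⟨ht.1, fun t' ht' h => ht.2 t' ht' ?_⟩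
        rw [← hρ]
        exact h)
    refine ⟨M, fun _ => ⟨hM1, ?_⟩⟩
    have h4 := hen ((2 : ℝ) ^ m) h1 _ _ hs0 hs1
    have h5 := hex ((2 : ℝ) ^ m) hP1 j hj (M.card : ℝ) (Nat.cast_nonneg _)
    rw [← hρ] at h5
    exact h5 (hM2.trans h4)
  choose M hM using key
  exact hdim_d (fun m => bad s n p q σ b l r a' b' j m) hX.hκ hρ0 hX.hd hC0 j0 M a'
    (fun m hm => (hM m hm).1) (fun m hm => (hM m hm).2)

end Pool.Agent.Lib.MP_570bef_ntXD
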