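import Mathlib
import Pool.Agent.Lib.MP_570bef_ntXD.Defs
import Pool.Agent.Lib.MP_570bef_ntRE.L2
import Pool.Agent.Lib.MP_570bef_ntM.SMb

/-!
# LEAF QA: the square integral `QQ` of the counting function

Write `f w v y = ∑_{x ∈ X} ind w (y - v x) ≥ 0`, a finite sum of `(1/w) 1_{[v x, v x + w)}`: bounded, bounded support, integrable, with integrable square
(see the private lemmas `SMb_ind`, `SMb_int`, `SMb_prod`, `SMb_prodint`, `SMb_close` in `MP_570bef_ntM/SMb.lean`: copy them with the prefix `QA_`).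

* `QQ_shift`: for `|a - a'| ≤ w`: `ind w (y - a) ≤ 3 * ind (3 w) ((y + w) - a')` (if `a ≤ y < a + w` then `a' ≤ y + w` and `y + w < a' + 3 w`). Sum over `x`, square, integrate, translate (`integral_add_right_eq_self`).
* `QQ_mono`: let `k = ⌈w'/w⌉₊ ≥ 1`, so `w' ≤ k w` and `k ≤ w'/w + 1 ≤ 2 w'/w`. `[a, a + w') ⊆ ⋃_{i<k} [a + i w, a + (i+1) w)`, so `ind w' (y - a) ≤ (w/w') ∑_{i<k} ind w ((y - i w) - a)`. Cauchy-Schwarz
  (`sq_sum_le_card_mul_sum_sq` or `inner_mul_le_norm_mul_norm`): `(f w' v y)² ≤ (w/w')² k ∑_{i<k} (f w v (y - i w))²`, integrate: `QQ w' ≤ (w/w')² k² QQ w ≤ 4 QQ w`.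
* `QQ_triv`: `0 ≤ f ≤ card/w`, `∫ f = card`.
* `QQ_en`: `f ε = ∑ psi ε L (y - v x) + f L`, `(a + b)² ≤ 2a² + 2b²`, `energy`, `psi_sq_int` (as in the proof of `pairs_le` in `SMb.lean`).
* `QQ_pairs`: as in the proof of `pairs_le` in `SMb.lean` (`SMb_close`): every pair contributes at least `1/(2w)`.
-/

set_option autoImplicit false

namespace Pool.Agent.Lib.MP_570bef_ntXD

open Finset MeasureTheory
open Pool.Agent.Lib.MP_570bef_ntRE (ind En)

private theorem QA_ind (w a y : ℝ) :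
    ind w (y - a) = (Set.Ico a (a + w)).indicator (fun _ => 1 / w) y := by
  unfold ind
  by_cases h : y ∈ Set.Ico a (a + w)
  · rw [Set.indicator_of_mem h, if_pos ⟨by linarith [h.1], by linarith [h.2]⟩]
  · rw [Set.indicator_of_notMem h, if_neg]
    intro h2
    exact h ⟨by linarith [h2.1], by linarith [h2.2]⟩

private theorem QA_nn {w : ℝ} (hw : 0 < w) (z : ℝ) : 0 ≤ ind w z := by
  unfold ind
  split_ifs
  · positivity
  · exact le_rfl

private theorem QA_int {w : ℝ} (hw : 0 < w) (a : ℝ) :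
    Integrable (fun y : ℝ => ind w (y - a)) ∧ ∫ y : ℝ, ind w (y - a) = 1 := by
  have e : (fun y : ℝ => ind w (y - a)) = (Set.Ico a (a + w)).indicator (fun _ => 1 / w) :=
    funext fun y => QA_ind w a y
  have hfin : volume (Set.Ico a (a + w)) ≠ ⊤ := by
    rw [Real.volume_Ico]
    exact ENNReal.ofReal_ne_top
  constructor
  · rw [e]
    exact (integrable_indicator_iff measurableSet_Ico).2 (integrableOn_const hfin)
  · rw [e, integral_indicator measurableSet_Ico, setIntegral_const, smul_eq_mul, Measure.real,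
      Real.volume_Ico, ENNReal.toReal_ofReal (by linarith)]
    field_simp
    ring

private theorem QA_prod {w : ℝ} (hw : 0 < w) (a b : ℝ) :
    (fun y : ℝ => ind w (y - a) * ind w (y - b)) =
      (Set.Ico (max a b) (min a b + w)).indicator (fun _ => 1 / w * (1 / w)) := by
  have _ := hw
  funext y
  rw [QA_ind, QA_ind]
  by_cases h1 : y ∈ Set.Ico a (a + w)
  · by_cases h2 : y ∈ Set.Ico b (b + w)
    · have h3 : y ∈ Set.Ico (max a b) (min a b + w) := by
        refine ⟨max_le h1.1 h2.1, ?_⟩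
        rcases le_total a b with h | h
        · rw [min_eq_left h]; exact h1.2
        · rw [min_eq_right h]; exact h2.2
      rw [Set.indicator_of_mem h1, Set.indicator_of_mem h2, Set.indicator_of_mem h3]
    · have h3 : y ∉ Set.Ico (max a b) (min a b + w) := by
        intro h
        exact h2 ⟨(le_max_right a b).trans h.1, lt_of_lt_of_le h.2 (by linarith [min_le_right a b])⟩
      rw [Set.indicator_of_notMem h2, Set.indicator_of_notMem h3, mul_zero]
  · have h3 : y ∉ Set.Ico (max a b) (min a b + w) := by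
      intro h
      exact h1 ⟨(le_max_left a b).trans h.1, lt_of_lt_of_le h.2 (by linarith [min_le_left a b])⟩
    rw [Set.indicator_of_notMem h1, Set.indicator_of_notMem h3, zero_mul]

private theorem QA_prodint {w : ℝ} (hw : 0 < w) (a b : ℝ) :
    Integrable (fun y : ℝ => ind w (y - a) * ind w (y - b)) := by
  have hfin : volume (Set.Ico (max a b) (min a b + w)) ≠ ⊤ := by
    rw [Real.volume_Ico]
    exact ENNReal.ofReal_ne_top
  rw [QA_prod hw]
  exact (integrable_indicator_iff measurableSet_Ico).2 (integrableOn_const hfin)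

private theorem QA_close {w a b : ℝ} (hw : 0 < w) (h : |a - b| ≤ w / 2) :
    1 / (2 * w) ≤ ∫ y : ℝ, ind w (y - a) * ind w (y - b) := by
  rw [QA_prod hw, integral_indicator measurableSet_Ico, setIntegral_const, smul_eq_mul, Measure.real,
    Real.volume_Ico]
  have h1 : w / 2 ≤ min a b + w - max a b := by
    rcases le_total a b with h2 | h2
    · rw [min_eq_left h2, max_eq_right h2]
      rw [abs_of_nonpos (by linarith)] at h
      linarith
    · rw [min_eq_right h2, max_eq_left h2]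
      rw [abs_of_nonneg (by linarith)] at h
      linarith
  rw [ENNReal.toReal_ofReal (by linarith)]
  have h2 : 0 < 1 / w * (1 / w) := by positivity
  have h3 := mul_le_mul_of_nonneg_right h1 h2.le
  have e : w / 2 * (1 / w * (1 / w)) = 1 / (2 * w) := by
    field_simp
  rw [e] at h3
  exact h3

private theorem QA_sq {ι : Type*} (X : Finset ι) (v : ι → ℝ) (w y : ℝ) :
    (∑ x ∈ X, ind w (y - v x)) ^ 2 = ∑ p ∈ X ×ˢ X, ind w (y - v p.1) * ind w (y - v p.2) := by
  rw [sq, Finset.sum_mul_sum, Finset.sum_product]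

private theorem QA_sqint {ι : Type*} (X : Finset ι) (v : ι → ℝ) {w : ℝ} (hw : 0 < w) :
    Integrable (fun y : ℝ => (∑ x ∈ X, ind w (y - v x)) ^ 2) := by
  simp_rw [QA_sq]
  exact integrable_finsetSum _ fun p _ => QA_prodint hw _ _

private theorem QA_fnn {ι : Type*} (X : Finset ι) (v : ι → ℝ) {w : ℝ} (hw : 0 < w) (y : ℝ) :
    0 ≤ ∑ x ∈ X, ind w (y - v x) :=
  Finset.sum_nonneg fun _ _ => QA_nn hw _

private theorem QA_shift {w a a' : ℝ} (hw : 0 < w) (h : |a - a'| ≤ w) (y : ℝ) :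
    ind w (y - a) ≤ 3 * ind (3 * w) ((y + w) - a') := by
  obtain ⟨h1, h2⟩ := abs_le.1 h
  have h3 := QA_nn (w := 3 * w) (by linarith) ((y + w) - a')
  by_cases h4 : 0 ≤ y - a ∧ y - a < w
  · have e1 : ind w (y - a) = 1 / w := if_pos h4
    have e2 : ind (3 * w) ((y + w) - a') = 1 / (3 * w) :=
      if_pos ⟨by linarith [h4.1], by linarith [h4.2]⟩
    rw [e1, e2]
    apply le_of_eq
    field_simp
  · have e1 : ind w (y - a) = 0 := if_neg h4
    rw [e1]
    linarith

private theorem QA_cover {w w' : ℝ} (hw : 0 < w) (h : w ≤ w') (a y : ℝ) :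
    ind w' (y - a) ≤ w / w' * ∑ i ∈ Finset.range ⌈w' / w⌉₊, ind w ((y - i * w) - a) := by
  have hw' : 0 < w' := hw.trans_le h
  have hnn : ∀ i ∈ Finset.range ⌈w' / w⌉₊, 0 ≤ ind w ((y - i * w) - a) := fun i _ => QA_nn hw _
  by_cases h4 : 0 ≤ y - a ∧ y - a < w'
  · have e1 : ind w' (y - a) = 1 / w' := if_pos h4
    have h5 : 0 ≤ (y - a) / w := div_nonneg h4.1 hw.le
    have h6 : (y - a) / w < w' / w := div_lt_div_of_pos_right h4.2 hw
    have h7 : ⌊(y - a) / w⌋₊ ∈ Finset.range ⌈w' / w⌉₊ := by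
      rw [Finset.mem_range]
      have := (Nat.floor_le h5).trans_lt (h6.trans_le (Nat.le_ceil _))
      exact_mod_cast this
    have h8 := Finset.single_le_sum hnn h7
    have h9 : (⌊(y - a) / w⌋₊ : ℝ) * w ≤ y - a := by
      have := Nat.floor_le h5
      rwa [le_div_iff₀ hw] at this
    have h10 : y - a < ((⌊(y - a) / w⌋₊ : ℝ) + 1) * w := by
      have := Nat.lt_floor_add_one ((y - a) / w)
      rwa [div_lt_iff₀ hw] at this
    have e2 : ind w ((y - (⌊(y - a) / w⌋₊ : ℕ) * w) - a) = 1 / w :=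
      if_pos ⟨by linarith, by linarith⟩
    rw [e1]
    rw [e2] at h8
    have h11 := mul_le_mul_of_nonneg_left h8 (div_nonneg hw.le hw'.le)
    refine le_trans (le_of_eq ?_) h11
    field_simp
  · have e1 : ind w' (y - a) = 0 := if_neg h4
    rw [e1]
    exact mul_nonneg (div_nonneg hw.le hw'.le) (Finset.sum_nonneg hnn)

theorem QQ_shift {ι : Type*} (X : Finset ι) (v v' : ι → ℝ) {w : ℝ} (hw : 0 < w)
    (h : ∀ x ∈ X, |v x - v' x| ≤ w) : QQ w X v ≤ 9 * QQ (3 * w) X v' := by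
  have hw3 : 0 < 3 * w := by linarith
  have h1 := integral_add_right_eq_self (μ := (volume : Measure ℝ))
    (fun y : ℝ => (∑ x ∈ X, ind (3 * w) (y - v' x)) ^ 2) w
  have i1 : Integrable (fun y : ℝ => (∑ x ∈ X, ind (3 * w) ((y + w) - v' x)) ^ 2) :=
    (QA_sqint X v' hw3).comp_add_right w
  unfold QQ
  rw [← h1, ← integral_const_mul]
  refine integral_mono (QA_sqint X v hw) (i1.const_mul 9) fun y => ?_
  simp only
  have h2 : ∑ x ∈ X, ind w (y - v x) ≤ 3 * ∑ x ∈ X, ind (3 * w) ((y + w) - v' x) := by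
    rw [Finset.mul_sum]
    exact Finset.sum_le_sum fun x hx => QA_shift hw (h x hx) y
  have h3 := QA_fnn X v hw y
  have h4 := pow_le_pow_left₀ h3 h2 2
  calc (∑ x ∈ X, ind w (y - v x)) ^ 2 ≤ (3 * ∑ x ∈ X, ind (3 * w) ((y + w) - v' x)) ^ 2 := h4
    _ = 9 * (∑ x ∈ X, ind (3 * w) ((y + w) - v' x)) ^ 2 := by ring

theorem QQ_mono {ι : Type*} (X : Finset ι) (v : ι → ℝ) {w w' : ℝ} (hw : 0 < w) (h : w ≤ w') :
    QQ w' X v ≤ 4 * QQ w X v := by
  have hw' : 0 < w' := hw.trans_le h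
  set k : ℕ := ⌈w' / w⌉₊ with hk
  have i1 : ∀ i : ℕ, Integrable (fun y : ℝ => (∑ x ∈ X, ind w ((y - i * w) - v x)) ^ 2) := by
    intro i
    exact (QA_sqint X v hw).comp_sub_right (i * w)
  have e1 : ∀ i : ℕ, ∫ y : ℝ, (∑ x ∈ X, ind w ((y - i * w) - v x)) ^ 2 = QQ w X v := by
    intro i
    exact integral_sub_right_eq_self (μ := (volume : Measure ℝ))
      (fun y : ℝ => (∑ x ∈ X, ind w (y - v x)) ^ 2) (i * w)
  have h1 : ∀ y : ℝ, (∑ x ∈ X, ind w' (y - v x)) ^ 2 ≤
      (w / w') ^ 2 * k * ∑ i ∈ Finset.range k, (∑ x ∈ X, ind w ((y - i * w) - v x)) ^ 2 := by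
    intro y
    have h2 : ∑ x ∈ X, ind w' (y - v x) ≤
        w / w' * ∑ i ∈ Finset.range k, ∑ x ∈ X, ind w ((y - i * w) - v x) := by
      rw [Finset.sum_comm, Finset.mul_sum]
      exact Finset.sum_le_sum fun x _ => QA_cover hw h (v x) y
    have h3 := pow_le_pow_left₀ (QA_fnn X v hw' y) h2 2
    have h4 : (∑ i ∈ Finset.range k, ∑ x ∈ X, ind w ((y - i * w) - v x)) ^ 2 ≤
        (k : ℝ) * ∑ i ∈ Finset.range k, (∑ x ∈ X, ind w ((y - i * w) - v x)) ^ 2 := by
      have h5 := sq_sum_le_card_mul_sum_sq (s := Finset.range k)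
        (f := fun i : ℕ => ∑ x ∈ X, ind w ((y - i * w) - v x))
      rwa [Finset.card_range] at h5
    have h6 := mul_le_mul_of_nonneg_left h4 (sq_nonneg (w / w'))
    calc (∑ x ∈ X, ind w' (y - v x)) ^ 2
        ≤ (w / w' * ∑ i ∈ Finset.range k, ∑ x ∈ X, ind w ((y - i * w) - v x)) ^ 2 := h3
      _ = (w / w') ^ 2 * (∑ i ∈ Finset.range k, ∑ x ∈ X, ind w ((y - i * w) - v x)) ^ 2 := by
          rw [mul_pow]
      _ ≤ (w / w') ^ 2 * ((k : ℝ) * ∑ i ∈ Finset.range k,
            (∑ x ∈ X, ind w ((y - i * w) - v x)) ^ 2) := h6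
      _ = (w / w') ^ 2 * k * ∑ i ∈ Finset.range k,
            (∑ x ∈ X, ind w ((y - i * w) - v x)) ^ 2 := by ring
  have h2 : QQ w' X v ≤ (w / w') ^ 2 * k * (k * QQ w X v) := by
    have h3 : QQ w' X v ≤ ∫ y : ℝ, (w / w') ^ 2 * k *
        ∑ i ∈ Finset.range k, (∑ x ∈ X, ind w ((y - i * w) - v x)) ^ 2 := by
      unfold QQ
      exact integral_mono (QA_sqint X v hw')
        ((integrable_finsetSum _ fun i _ => i1 i).const_mul _) fun y => h1 y
    rw [integral_const_mul, integral_finsetSum _ fun i _ => i1 i,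
      Finset.sum_congr rfl fun i _ => e1 i, Finset.sum_const, Finset.card_range,
      nsmul_eq_mul] at h3
    exact h3
  have h3 : w / w' * (k : ℝ) ≤ 2 := by
    have h4 : (k : ℝ) ≤ w' / w + 1 := (Nat.ceil_lt_add_one (div_nonneg hw'.le hw.le)).le
    have h5 := mul_le_mul_of_nonneg_left h4 (div_nonneg hw.le hw'.le)
    have h6 : w / w' * (w' / w + 1) = 1 + w / w' := by
      field_simp
    have h7 : w / w' ≤ 1 := (div_le_one hw').2 h
    linarith
  have h4 : 0 ≤ w / w' * (k : ℝ) := by positivity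
  have h5 : 0 ≤ QQ w X v := integral_nonneg fun y => sq_nonneg _
  have h6 : (w / w' * (k : ℝ)) ^ 2 ≤ 4 := by nlinarith
  calc QQ w' X v ≤ (w / w') ^ 2 * k * (k * QQ w X v) := h2
    _ = (w / w' * (k : ℝ)) ^ 2 * QQ w X v := by ring
    _ ≤ 4 * QQ w X v := mul_le_mul_of_nonneg_right h6 h5

theorem QQ_triv {ι : Type*} (X : Finset ι) (v : ι → ℝ) {w : ℝ} (hw : 0 < w) :
    QQ w X v ≤ (X.card : ℝ) ^ 2 / w := by
  have i1 : Integrable (fun y : ℝ => ∑ x ∈ X, ind w (y - v x)) :=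
    integrable_finsetSum _ fun x _ => (QA_int hw _).1
  have hle : ∀ z : ℝ, ind w z ≤ 1 / w := by
    intro z
    unfold ind
    split_ifs
    · exact le_rfl
    · positivity
  have h1 : ∀ y : ℝ, ∑ x ∈ X, ind w (y - v x) ≤ (X.card : ℝ) * (1 / w) := by
    intro y
    have h2 := Finset.sum_le_card_nsmul X (fun x => ind w (y - v x)) (1 / w) fun x _ => hle _
    rwa [nsmul_eq_mul] at h2
  have h2 : QQ w X v ≤ ∫ y : ℝ, (X.card : ℝ) * (1 / w) * ∑ x ∈ X, ind w (y - v x) := by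
    unfold QQ
    refine integral_mono (QA_sqint X v hw) (i1.const_mul _) fun y => ?_
    simp only
    rw [sq]
    exact mul_le_mul_of_nonneg_right (h1 y) (QA_fnn X v hw y)
  rw [integral_const_mul, integral_finsetSum _ fun x _ => (QA_int hw _).1,
    Finset.sum_congr rfl fun x _ => (QA_int hw (v x)).2, Finset.sum_const, nsmul_eq_mul,
    mul_one] at h2
  refine h2.trans (le_of_eq ?_)
  ring

theorem QQ_en {ι : Type*} (X : Finset ι) (v : ι → ℝ) {ε L : ℝ} (hε : 0 < ε) (hL : ε ≤ L) :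
    QQ ε X v ≤ 2 * En ε L X v + 2 * QQ L X v := by
  have hL0 : 0 < L := lt_of_lt_of_le hε hL
  have iA := QA_sqint X v hε
  have iB := QA_sqint X v hL0
  have iP := Pool.Agent.Lib.MP_570bef_ntRE.psi_sq_int hε hL X v
  have h2 : ∫ y : ℝ, (∑ x ∈ X, ind ε (y - v x)) ^ 2 ≤
      ∫ y : ℝ, (2 * (∑ x ∈ X, Pool.Agent.Lib.MP_570bef_ntRE.psi ε L (y - v x)) ^ 2 +
        2 * (∑ x ∈ X, ind L (y - v x)) ^ 2) := by
    refine integral_mono iA ((iP.const_mul 2).add (iB.const_mul 2)) fun y => ?_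
    simp only
    have e : ∑ x ∈ X, Pool.Agent.Lib.MP_570bef_ntRE.psi ε L (y - v x) =
        ∑ x ∈ X, ind ε (y - v x) - ∑ x ∈ X, ind L (y - v x) := by
      unfold Pool.Agent.Lib.MP_570bef_ntRE.psi
      rw [Finset.sum_sub_distrib]
    rw [e]
    nlinarith [sq_nonneg (∑ x ∈ X, ind ε (y - v x) - 2 * ∑ x ∈ X, ind L (y - v x))]
  rw [integral_add (iP.const_mul 2) (iB.const_mul 2), integral_const_mul,
    integral_const_mul, Pool.Agent.Lib.MP_570bef_ntRE.energy hε hL] at h2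
  exact h2

theorem QQ_pairs {ι : Type*} (X : Finset ι) (v : ι → ℝ) {w : ℝ} (hw : 0 < w)
    (X2 : Finset (ι × ι)) (hX2 : ∀ p ∈ X2, p.1 ∈ X ∧ p.2 ∈ X ∧ |v p.1 - v p.2| ≤ w / 2) :
    (X2.card : ℝ) ≤ 2 * w * QQ w X v := by
  have iA := QA_sqint X v hw
  have h1 : (X2.card : ℝ) * (1 / (2 * w)) ≤ QQ w X v := by
    have h2 : ∫ y : ℝ, ∑ p ∈ X2, ind w (y - v p.1) * ind w (y - v p.2) ≤
        ∫ y : ℝ, (∑ x ∈ X, ind w (y - v x)) ^ 2 := by
      refine integral_mono (integrable_finsetSum _ fun p _ => QA_prodint hw _ _) iA fun y => ?_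
      simp only
      rw [QA_sq]
      refine Finset.sum_le_sum_of_subset_of_nonneg (fun p hp => ?_) fun p _ _ =>
        mul_nonneg (QA_nn hw _) (QA_nn hw _)
      obtain ⟨a, b, _⟩ := hX2 p hp
      exact Finset.mem_product.2 ⟨a, b⟩
    rw [integral_finsetSum _ fun p _ => QA_prodint hw _ _] at h2
    refine le_trans ?_ h2
    rw [← nsmul_eq_mul, ← Finset.sum_const]
    exact Finset.sum_le_sum fun p hp => QA_close hw (hX2 p hp).2.2
  have h5 := mul_le_mul_of_nonneg_left h1 (by positivity : 0 ≤ 2 * w)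
  have e : 2 * w * ((X2.card : ℝ) * (1 / (2 * w))) = X2.card := by
    field_simp
  rw [e] at h5
  exact h5

end Pool.Agent.Lib.MP_570bef_ntXD
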