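import Mathlib
import Pool.Agent.Lib.MP_570bef_ntXD.QA
import Pool.Agent.Lib.MP_570bef_ntRE.Blk

/-!
# LEAF ASb: coincidences of the floors, sizes

See `MP_570bef_ntM/SMc.lean` (private lemmas `SMc_card`, `SMc_sfl`, `SMc_val`; theorems `xx_nonempty`, `val_le`, `jt_le`): the same with `PB` in place of `Par`.
`jt_q`: `0 ≤ vl θ t - val θ t ≤ 2 s` (floors), so `val θ t = val θ t'` implies `|vl θ t - vl θ t'| ≤ 2 s ≤ (4 s + 2)/2`: `QQ_pairs` with `w = 4 s + 2`.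
-/

set_option autoImplicit false

namespace Pool.Agent.Lib.MP_570bef_ntXD

open Finset
open Pool.Agent.Lib.MP_570bef_ntM (val JT)
open Pool.Agent.Lib.MP_570bef_ntRE (XX)

private theorem ASb_card {s : ℕ} {p q σ b : ℝ} (h : PB s p q σ b) (P : ℝ) (hP : 1 ≤ P) :
    0 < ((XX s σ b P).card : ℝ) := by
  have h0 : 0 < σ := h.hσ
  have h1 : σ < 1 := h.hσb.trans h.hb
  have h2 : 0 ≤ b := (h.hσ.trans h.hσb).le
  have hP0 : 0 < P := by linarith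
  unfold Pool.Agent.Lib.MP_570bef_ntRE.XX
  rw [Finset.card_product, Nat.cast_mul]
  have a1 := Pool.Agent.Lib.MP_570bef_ntRE.U_card_ge s h0 h1 (zero_le_one : (0:ℝ) ≤ 1) hP
  have a2 := Pool.Agent.Lib.MP_570bef_ntRE.U_card_ge s h0 h1 h2 hP
  exact mul_pos (lt_of_lt_of_le (Real.rpow_pos_of_pos hP0 _) a1)
    (lt_of_lt_of_le (Real.rpow_pos_of_pos hP0 _) a2)

theorem xx_ne {s : ℕ} {p q σ b : ℝ} (h : PB s p q σ b) (P : ℝ) (hP : 1 ≤ P) :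
    (XX s σ b P).Nonempty := by
  have h1 := ASb_card h P hP
  rw [← Finset.card_pos]
  exact_mod_cast h1

private theorem ASb_sfl {s : ℕ} (c : ℝ) (u : Fin s → ℕ) :
    (Pool.Agent.Lib.MP_570bef_ntM.sfl c u : ℝ) ≤ Pool.Agent.Lib.MP_570bef_ntRE.S u c ∧
      Pool.Agent.Lib.MP_570bef_ntRE.S u c ≤ (Pool.Agent.Lib.MP_570bef_ntM.sfl c u : ℝ) + s := by
  unfold Pool.Agent.Lib.MP_570bef_ntM.sfl Pool.Agent.Lib.MP_570bef_ntRE.S
    Pool.Agent.Lib.MP_570bef_ntM.fl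
  push_cast
  constructor
  · exact Finset.sum_le_sum fun i _ => Nat.floor_le (Real.rpow_nonneg (Nat.cast_nonneg _) c)
  · have h1 : ∑ i, ((u i : ℝ)) ^ c ≤ ∑ i : Fin s, ((⌊(u i : ℝ) ^ c⌋₊ : ℝ) + 1) :=
      Finset.sum_le_sum fun i _ => (Nat.lt_floor_add_one _).le
    rw [Finset.sum_add_distrib] at h1
    simpa using h1

private theorem ASb_val {s : ℕ} (c : ℝ) (t : (Fin s → ℕ) × (Fin s → ℕ)) :
    (val c t : ℝ) ≤ vl c t ∧ vl c t ≤ (val c t : ℝ) + 2 * s := by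
  obtain ⟨a1, a2⟩ := ASb_sfl c t.1
  obtain ⟨b1, b2⟩ := ASb_sfl c t.2
  unfold Pool.Agent.Lib.MP_570bef_ntM.val vl
  push_cast
  constructor <;> linarith

theorem val_up {s : ℕ} {p q σ b : ℝ} (h : PB s p q σ b) (P : ℝ) (hP : 1 ≤ P) (θ : ℝ) (hθ : 1 < θ)
    (t : (Fin s → ℕ) × (Fin s → ℕ)) (ht : t ∈ XX s σ b P) :
    (val θ t : ℝ) ≤ 2 * s * 16 ^ θ * P ^ θ := by
  have h0 : 0 < σ := h.hσ
  have h1 : σ < 1 := h.hσb.trans h.hb
  have h2 : 0 ≤ b := (h.hσ.trans h.hσb).le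
  have hP0 : 0 < P := by linarith
  have hc0 : 0 ≤ θ := by linarith
  unfold Pool.Agent.Lib.MP_570bef_ntRE.XX at ht
  rw [Finset.mem_product] at ht
  have a1 := Pool.Agent.Lib.MP_570bef_ntRE.S_le h0 h1 (zero_le_one : (0:ℝ) ≤ 1) hP hc0 ht.1
  have a2 := Pool.Agent.Lib.MP_570bef_ntRE.S_le h0 h1 h2 hP hc0 ht.2
  rw [Real.rpow_one] at a1
  have hb : P ^ b ≤ P := by
    have h3 := Real.rpow_le_rpow_of_exponent_le hP h.hb.le
    rwa [Real.rpow_one] at h3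
  have h4 : (16 * P ^ b) ^ θ ≤ (16 * P) ^ θ :=
    Real.rpow_le_rpow (by positivity) (by linarith) hc0
  have h5 : (s : ℝ) * (16 * P ^ b) ^ θ ≤ s * (16 * P) ^ θ :=
    mul_le_mul_of_nonneg_left h4 (Nat.cast_nonneg _)
  have h6 := (ASb_val θ t).1
  unfold vl at h6
  have e : (16 * P) ^ θ = 16 ^ θ * P ^ θ := Real.mul_rpow (by norm_num) hP0.le
  rw [e] at h5 a1
  linarith

theorem jt_q (s : ℕ) (σ b P θ : ℝ) :
    (JT (XX s σ b P) (val θ) : ℝ) ≤ 2 * (4 * s + 2) * QQ (4 * s + 2) (XX s σ b P) (vl θ) := by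
  classical
  have hw : (0:ℝ) < 4 * s + 2 := by positivity
  have hJ : (JT (XX s σ b P) (val θ) : ℝ) =
      ((((XX s σ b P) ×ˢ (XX s σ b P)).filter fun x => val θ x.1 = val θ x.2).card : ℝ) := by
    unfold Pool.Agent.Lib.MP_570bef_ntM.JT
    rfl
  rw [hJ]
  refine QQ_pairs (XX s σ b P) (vl θ) hw _ fun x hx => ?_
  rw [Finset.mem_filter, Finset.mem_product] at hx
  refine ⟨hx.1.1, hx.1.2, ?_⟩
  have a := ASb_val θ x.1
  have a' := ASb_val θ x.2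
  have e : (val θ x.1 : ℝ) = val θ x.2 := by rw [hx.2]
  rw [abs_le]
  constructor <;> linarith [a.1, a.2, a'.1, a'.2]

end Pool.Agent.Lib.MP_570bef_ntXD
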