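import Mathlib
import Pool.Agent.Lib.MP_570bef_ntXD.QA

/-!
# LEAF CH: the chain of scales

`T j = 1296^j * (card² / w 0)`. `QQ (w 0) X v ≤ T 0` (`QQ_triv`), `QQ (w n) X v > T n`: so there is `j < n` with `QQ (w j) X v ≤ T j` and `T (j+1) < QQ (w (j+1)) X v`
(`Nat.find` of the least `i` with `T i < QQ (w i) X v`, `i ≥ 1`).
Let `|v x - v' x| ≤ w (j+1)`. `QQ_shift` (`v`, `v'`, `w (j+1)`): `T (j+1) < 9 QQ (3 w (j+1)) X v'`. `QQ_shift` (`v'`, `v`, `w j`; `w (j+1) ≤ w j`) and `QQ_mono` (`w j ≤ 3 w j`):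
`QQ (w j) X v' ≤ 9 QQ (3 w j) X v ≤ 36 QQ (w j) X v ≤ 36 T j`. `QQ_en` with `ε = 3 w (j+1) ≤ L = w j`: `QQ (3 w (j+1)) X v' ≤ 2 En + 72 T j`. As `T (j+1) = 1296 T j`: `En ≥ (144 - 72)/2 T j = 36 T j ≥ T 0`.
-/

set_option autoImplicit false

namespace Pool.Agent.Lib.MP_570bef_ntXD

open Finset MeasureTheory
open Pool.Agent.Lib.MP_570bef_ntRE (ind En)

theorem chain {ι : Type*} (X : Finset ι) (w : ℕ → ℝ) (n : ℕ) (hw : ∀ j ≤ n, 0 < w j)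
    (hw3 : ∀ j < n, 3 * w (j + 1) ≤ w j) (v : ι → ℝ)
    (h : 1296 ^ n * ((X.card : ℝ) ^ 2 / w 0) < QQ (w n) X v) :
    ∃ j < n, ∀ v' : ι → ℝ, (∀ x ∈ X, |v x - v' x| ≤ w (j + 1)) →
      (X.card : ℝ) ^ 2 / w 0 ≤ En (3 * w (j + 1)) (w j) X v' := by
  have hw0 : 0 < w 0 := hw 0 (Nat.zero_le n)
  have hB : 0 ≤ (X.card : ℝ) ^ 2 / w 0 := by positivity
  obtain ⟨j, hjn, hj1, hj2⟩ : ∃ j < n,
      QQ (w j) X v ≤ 1296 ^ j * ((X.card : ℝ) ^ 2 / w 0) ∧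
      1296 ^ (j + 1) * ((X.card : ℝ) ^ 2 / w 0) < QQ (w (j + 1)) X v := by
    by_contra hc
    push Not at hc
    have key : ∀ i ≤ n, QQ (w i) X v ≤ 1296 ^ i * ((X.card : ℝ) ^ 2 / w 0) := by
      intro i
      induction i with
      | zero => intro _; simpa using QQ_triv X v hw0
      | succ i ih => intro hi; exact hc i (by omega) (ih (by omega))
    exact absurd h (not_lt.mpr (key n le_rfl))
  refine ⟨j, hjn, fun v' hv' => ?_⟩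
  have hwj : 0 < w j := hw j hjn.le
  have hwj1 : 0 < w (j + 1) := hw (j + 1) hjn
  have h3 := hw3 j hjn
  have a1 := QQ_shift X v v' hwj1 hv'
  have a2 : QQ (w j) X v' ≤ 9 * QQ (3 * w j) X v := by
    refine QQ_shift X v' v hwj (fun x hx => ?_)
    rw [abs_sub_comm]
    exact (hv' x hx).trans (by linarith)
  have a3 : QQ (3 * w j) X v ≤ 4 * QQ (w j) X v := QQ_mono X v hwj (by linarith)
  have a4 : QQ (3 * w (j + 1)) X v' ≤ 2 * En (3 * w (j + 1)) (w j) X v' + 2 * QQ (w j) X v' :=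
    QQ_en X v' (by linarith) h3
  have hp : (1 : ℝ) ≤ 1296 ^ j := one_le_pow₀ (by norm_num)
  have e1 : (1296 : ℝ) ^ (j + 1) * ((X.card : ℝ) ^ 2 / w 0) =
      1296 * (1296 ^ j * ((X.card : ℝ) ^ 2 / w 0)) := by rw [pow_succ]; ring
  have e2 : (X.card : ℝ) ^ 2 / w 0 ≤ 1296 ^ j * ((X.card : ℝ) ^ 2 / w 0) :=
    le_mul_of_one_le_left hB hp
  rw [e1] at hj2
  linarith

end Pool.Agent.Lib.MP_570bef_ntXD
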