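import Mathlib
import Pool.Agent.Lib.MP_570bef_ntRE.PairC

/-!
# LEAF PU: the pair bound without lower bounds for `e`, `e'`

Case `32 ε/th ≤ e`: `pairC` with `lam = 1` (`R' = R`). Case `32 ε/th ≤ e'`: `pairC` with the roles of `E` and `F` exchanged (`E + F = F + 1 * E`, `|b - a| = |a - b|`, `e * e' = e' * e`).
Otherwise `e, e' < 32 ε/th`: `|J| ≤ 2/ε` (`triv`, `kap_le`), and `7200 C/th^3 * R * L/(e e') ≥ 7200 * ε/(th^3 (32 ε/th)^2) = 7200/(1024 th ε) ≥ 2/ε` (`th ≤ 1`, `C, R ≥ 1`, `L ≥ ε`).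
-/

set_option autoImplicit false

namespace Pool.Agent.Lib.MP_570bef_ntXD

open Pool.Agent.Lib.MP_570bef_ntRE

theorem pairU {p q ell C R a b e e' th ε L : ℝ} {E E1 E2 F F1 F2 : ℝ → ℝ}
    (hpq : p < q) (hq : q ≤ p + 1) (hε : 0 < ε) (hL : ε ≤ L)
    (hth : 0 < th) (hth1 : th ≤ 1) (hC : 1 ≤ C) (hR : 1 ≤ R) (ha : 0 < a) (ha1 : a ≤ 1)
    (hb : 0 < b) (hb1 : b ≤ 1) (hab : th ≤ |a - b|) (hell : 12 * C / th ≤ ell)
    (hell1 : 1 ≤ ell) (he : 0 < e) (he' : 0 < e')
    (hE : Tame p q ell C R a e E E1 E2) (hF : Tame p q ell C R b e' F F1 F2) :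
    |∫ t in p..q, om p q t * kap ε L (E t + F t)| ≤
      7200 * C / th ^ 3 * R * L / (e * e') := by
  rcases le_or_gt (32 * ε / th) e with h | h
  · have h1 := pairC (lam := 1) hpq hq hε hL hth hth1 hC one_pos hR hb hb1 hab hell hell1 h he' hE hF
    simpa only [one_mul, mul_one] using h1
  rcases le_or_gt (32 * ε / th) e' with h' | h'
  · have h1 := pairC (lam := 1) hpq hq hε hL hth hth1 hC one_pos hR ha ha1 (by rw [abs_sub_comm]; exact hab)
      hell hell1 h' he hF hE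
    have h2 : (fun t => om p q t * kap ε L (F t + 1 * E t)) = fun t => om p q t * kap ε L (E t + F t) := by
      funext t
      rw [one_mul, add_comm]
    rw [h2, mul_one, mul_comm e' e] at h1
    exact h1
  have h1 := triv hpq hq ε L (fun t => E t + F t) (K := 2 / ε) fun t _ => kap_le hε hL _
  refine h1.trans ?_
  rw [div_le_div_iff₀ hε (mul_pos he he')]
  have hL0 : 0 < L := hε.trans_le hL
  have h3 : e * e' ≤ (32 * ε / th) * (32 * ε / th) := mul_le_mul h.le h'.le he'.le (by positivity)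
  have h4 : 7200 * (ε * ε) / th ^ 3 ≤ 7200 * C / th ^ 3 * R * L * ε := by
    have h5 : ε * ε ≤ C * R * L * ε := by
      have h6 : 1 * 1 * ε ≤ C * R * L := by gcongr
      nlinarith
    calc 7200 * (ε * ε) / th ^ 3 ≤ 7200 * (C * R * L * ε) / th ^ 3 := by gcongr
      _ = 7200 * C / th ^ 3 * R * L * ε := by ring
  have h7 : 2 * ((32 * ε / th) * (32 * ε / th)) ≤ 7200 * (ε * ε) / th ^ 3 := by
    have h8 : 2 * ((32 * ε / th) * (32 * ε / th)) = 2048 * (ε * ε) * th / th ^ 3 := by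
      field_simp
      ring
    rw [h8]
    have h9 : 2048 * (ε * ε) * th ≤ 7200 * (ε * ε) := by nlinarith [mul_pos hε hε]
    exact div_le_div_of_nonneg_right h9 (by positivity)
  linarith

end Pool.Agent.Lib.MP_570bef_ntXD
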