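import Mathlib
import Pool.Agent.Lib.MP_570bef_ntXD.Defs
import Pool.Agent.Lib.MP_570bef_ntXD.PU
import Pool.Agent.Lib.MP_570bef_ntRE.FamC

/-!
# LEAF FUa: the pair bounds for all scales

Copy the proof of `fam_C` (`MP_570bef_ntRE/FamC.lean`) with `lam = 1`, `ε`, `L` free (`0 < ε ≤ L`; no `P^l`), `vl` in place of `val · · 1`, and `pairU` in place of `pairC` (so only `0 < e`, from `pos_diff` with `M = 1`, is needed).
`one`, `two`: the private lemma `FamC_kap` (copy it with prefix `FUa_`; it holds for all `0 < ε ≤ L`).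
`three`: `K0 = 7200 * 1100/th^3 * (4 q 16^q)`, `R = 4 q 16^q P^(q - p)`.
`lip`: the private lemmas `FamC_one`, `FamC_le` (copy them): `|vl t x - vl t' x| ≤ 2 s (16 P)^q log (16 P) |t - t'|`, and `2 s 16^q P^q log (16 P) ≤ P^(q + r)` for large `P` (`2 s 16^q log (16 P) ≤ P^r`:
`isLittleO_log_rpow_atTop`, or `Real.log_le_rpow_div`: `log x ≤ x^e/e`, with `e = r/2`: `log (16 P) ≤ (16 P)^(r/2)/(r/2)`).
-/

set_option autoImplicit false

namespace Pool.Agent.Lib.MP_570bef_ntXD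

open Pool.Agent.Lib.MP_570bef_ntRE

private theorem FUa_one {s : ℕ} {p q P : ℝ} (hp : 1 < p) (hP : 1 ≤ P) {u : Fin s → ℕ}
    (h1 : ∀ i, 1 ≤ u i) (h2 : ∀ i, (u i : ℝ) ≤ 16 * P) {t t' : ℝ} (ht : t ∈ Set.Icc p q)
    (ht' : t' ∈ Set.Icc p q) :
    |S u t - S u t'| ≤ s * ((16 * P) ^ q * Real.log (16 * P)) * |t - t'| := by
  have hb : ∀ x ∈ Set.Icc p q, ‖SD1 u x‖ ≤ s * ((16 * P) ^ q * Real.log (16 * P)) := by
    intro x hx
    rw [Real.norm_eq_abs]
    unfold SD1
    refine (Finset.abs_sum_le_sum_abs _ _).trans ?_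
    have h3 : ∀ i : Fin s, |(u i : ℝ) ^ x * Real.log (u i)| ≤ (16 * P) ^ q * Real.log (16 * P) := by
      intro i
      have hu1 : (1 : ℝ) ≤ u i := by exact_mod_cast h1 i
      have hu0 : (0 : ℝ) < u i := by linarith
      have hl0 : 0 ≤ Real.log (u i) := Real.log_nonneg hu1
      rw [abs_of_nonneg (mul_nonneg (Real.rpow_nonneg hu0.le _) hl0)]
      have h4 : (u i : ℝ) ^ x ≤ (16 * P) ^ q :=
        (Real.rpow_le_rpow hu0.le (h2 i) (by linarith [hx.1])).trans
          (Real.rpow_le_rpow_of_exponent_le (by linarith) hx.2)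
      exact mul_le_mul h4 (Real.log_le_log hu0 (h2 i)) hl0 (by positivity)
    refine (Finset.sum_le_sum fun i _ => h3 i).trans (le_of_eq ?_)
    rw [Finset.sum_const, Finset.card_univ, Fintype.card_fin, nsmul_eq_mul]
  have h5 := Convex.norm_image_sub_le_of_norm_hasDerivWithin_le (f := S u) (f' := SD1 u)
    (fun x _ => (S_der h1 x).hasDerivWithinAt) hb (convex_Icc p q) ht' ht
  rw [Real.norm_eq_abs, Real.norm_eq_abs] at h5
  exact h5

private theorem FUa_le {s : ℕ} {σ b P : ℝ} (hσ : 0 < σ) (hσ1 : σ < 1) (hb : 0 < b) (hb1 : b ≤ 1)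
    (hP : 1 ≤ P) {u : Fin s → ℕ} (hu : u ∈ U s σ b P) (i : Fin s) : (u i : ℝ) ≤ 16 * P := by
  have h := ((mem_U (by linarith)).1 hu i).2
  have h1 : P ^ (b * σ ^ (i : ℕ)) ≤ P := by
    calc P ^ (b * σ ^ (i : ℕ)) ≤ P ^ (1 : ℝ) := by
          refine Real.rpow_le_rpow_of_exponent_le hP ?_
          have h2 : σ ^ (i : ℕ) ≤ 1 := pow_le_one₀ hσ.le hσ1.le
          have h3 : 0 ≤ σ ^ (i : ℕ) := by positivity
          nlinarith
      _ = P := Real.rpow_one P
  linarith

private theorem FUa_kap {p q ell C R a e ε L lam : ℝ} {E E1 E2 : ℝ → ℝ} (hpq : p < q)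
    (hq : q ≤ p + 1) (hε : 0 < ε) (hL : ε ≤ L) (he : 0 < e) (hlam : 0 < lam)
    (hE : Tame p q ell C R a e E E1 E2) :
    |∫ t in p..q, om p q t * kap ε L (lam * E t)| ≤ 8 / lam * (1 / e) := by
  refine triv hpq hq ε L (fun t => lam * E t) (fun t ht => ?_)
  have h1 : e / 4 ≤ |E t| := by
    rcases hE.sgn with h | h
    · exact (h t ht).trans (le_abs_self _)
    · have h2 := h t ht
      exact (by linarith : e / 4 ≤ -E t).trans (neg_le_abs _)
  have h2 : 0 < |E t| := lt_of_lt_of_le (by positivity) h1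
  have h3 : lam * E t ≠ 0 := mul_ne_zero hlam.ne' (abs_pos.1 h2)
  refine (kap_inv hε hL h3).trans ?_
  rw [abs_mul, abs_of_pos hlam]
  have h4 : 8 / lam * (1 / e) = 2 / (lam * (e / 4)) := by
    field_simp
    norm_num
  rw [h4]
  exact div_le_div_of_nonneg_left (by norm_num) (by positivity)
    (mul_le_mul_of_nonneg_left h1 hlam.le)

theorem fam_U {s : ℕ} {p q σ b : ℝ} (h : PB s p q σ b) {r : ℝ} (hr : 0 < r) :
    ∃ K P1 : ℝ, FU s p q σ b r K P1 := by
  have hσ1 : σ < 1 := h.hσb.trans h.hb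
  have hb0 : 0 < b := h.hσ.trans h.hσb
  have hq1 : 1 ≤ q := by linarith [h.hp, h.hpq]
  obtain ⟨th, hth, hth1, hsep⟩ := sep s h.hσ h.hσb h.hb
  obtain ⟨PT1, hPT1, hT1⟩ := tame_U s (b := 1) h.hσ h.hp h.hpq.le h.gap one_pos le_rfl
  obtain ⟨PTb, hPTb, hTb⟩ := tame_U s (b := b) h.hσ h.hp h.hpq.le h.gap hb0 h.hb.le
  obtain ⟨PD1, hPD1, hD1⟩ := pos_diff s h.hσ h.hp h.gap 1 one_pos le_rfl 1
  obtain ⟨PDb, hPDb, hDb⟩ := pos_diff s h.hσ h.hp h.gap b hb0 h.hb.le 1
  set K0 : ℝ := 7200 * 1100 / th ^ 3 * (4 * q * 16 ^ q) with hK0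
  have hK0n : 0 ≤ K0 := by positivity
  set c0 : ℝ := 2 * s * 16 ^ q * (16 ^ (r / 2) / (r / 2)) with hc0
  have hc0n : 0 ≤ c0 := by positivity
  set P1 : ℝ := max (max (max PT1 PTb) (max PD1 PDb)) (max (Real.exp (12 * 1100 / th))
    (c0 ^ (2 / r))) with hP1
  have a1 : ∀ P ≥ P1, PT1 ≤ P := fun P hP =>
    ((le_max_left _ _).trans ((le_max_left _ _).trans (le_max_left _ _))).trans hP
  have a2 : ∀ P ≥ P1, PTb ≤ P := fun P hP =>
    ((le_max_right _ _).trans ((le_max_left _ _).trans (le_max_left _ _))).trans hP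
  have a3 : ∀ P ≥ P1, PD1 ≤ P := fun P hP =>
    ((le_max_left _ _).trans ((le_max_right _ _).trans (le_max_left _ _))).trans hP
  have a4 : ∀ P ≥ P1, PDb ≤ P := fun P hP =>
    ((le_max_right _ _).trans ((le_max_right _ _).trans (le_max_left _ _))).trans hP
  have a5 : ∀ P ≥ P1, Real.exp (12 * 1100 / th) ≤ P := fun P hP =>
    ((le_max_left _ _).trans (le_max_right _ _)).trans hP
  have a7 : ∀ P ≥ P1, c0 ^ (2 / r) ≤ P := fun P hP =>
    ((le_max_right _ _).trans (le_max_right _ _)).trans hP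
  have a8 : ∀ P ≥ P1, 1 ≤ P := fun P hP => by linarith [a1 P hP]
  have a10 : ∀ P ≥ P1, 12 * 1100 / th ≤ Real.log P := by
    intro P hP
    rw [Real.le_log_iff_exp_le (by linarith [a8 P hP])]
    exact a5 P hP
  have a11 : ∀ P ≥ P1, c0 ≤ P ^ (r / 2) := by
    intro P hP
    have e1 : c0 = (c0 ^ (2 / r)) ^ (r / 2) := by
      rw [← Real.rpow_mul hc0n, div_mul_div_comm, mul_comm r 2, div_self (by positivity),
        Real.rpow_one]
    rw [e1]
    exact Real.rpow_le_rpow (Real.rpow_nonneg hc0n _) (a7 P hP) (by positivity)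
  refine ⟨max 8 K0, P1, ⟨?_, ?_, ?_, ?_, ?_, ?_⟩⟩
  · exact (by norm_num : (0 : ℝ) ≤ 8).trans (le_max_left _ _)
  · exact a8 P1 le_rfl
  · intro P hP x hx t ht t' ht'
    have hP1' := a8 P hP
    obtain ⟨hx1, hx2⟩ := Finset.mem_product.1 hx
    have b1 := FUa_one h.hp hP1' (fun i => U_pos h.hσ zero_le_one hP1' hx1 i)
      (fun i => FUa_le h.hσ hσ1 one_pos le_rfl hP1' hx1 i) ht ht'
    have b2 := FUa_one h.hp hP1' (fun i => U_pos h.hσ hb0.le hP1' hx2 i)
      (fun i => FUa_le h.hσ hσ1 hb0 h.hb.le hP1' hx2 i) ht ht'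
    have b3 : |vl t x - vl t' x| ≤
        s * ((16 * P) ^ q * Real.log (16 * P)) * |t - t'| +
          s * ((16 * P) ^ q * Real.log (16 * P)) * |t - t'| := by
      have e1 : vl t x - vl t' x = (S x.1 t - S x.1 t') + (S x.2 t - S x.2 t') := by
        unfold vl
        ring
      rw [e1]
      exact (abs_add_le _ _).trans (add_le_add b1 b2)
    refine b3.trans ?_
    have e2 : s * ((16 * P) ^ q * Real.log (16 * P)) * |t - t'| +
          s * ((16 * P) ^ q * Real.log (16 * P)) * |t - t'| =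
        2 * s * ((16 * P) ^ q * Real.log (16 * P)) * |t - t'| := by ring
    rw [e2]
    refine mul_le_mul_of_nonneg_right ?_ (abs_nonneg _)
    have hPpos : 0 < P := by linarith
    have e3 : (16 * P) ^ q = 16 ^ q * P ^ q := Real.mul_rpow (by norm_num) hPpos.le
    have e4 : P ^ (q + r) = P ^ q * (P ^ (r / 2) * P ^ (r / 2)) := by
      rw [← Real.rpow_add hPpos, add_halves, ← Real.rpow_add hPpos]
    have e5 : Real.log (16 * P) ≤ 16 ^ (r / 2) / (r / 2) * P ^ (r / 2) := by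
      have h1 := Real.log_le_rpow_div (x := 16 * P) (by positivity) (half_pos hr)
      rw [Real.mul_rpow (by norm_num) hPpos.le] at h1
      refine h1.trans (le_of_eq ?_)
      ring
    rw [e3, e4]
    have hs0 : (0 : ℝ) ≤ 2 * s * 16 ^ q := by positivity
    calc 2 * s * (16 ^ q * P ^ q * Real.log (16 * P)) =
          P ^ q * (2 * s * 16 ^ q * Real.log (16 * P)) := by ring
      _ ≤ P ^ q * (2 * s * 16 ^ q * (16 ^ (r / 2) / (r / 2) * P ^ (r / 2))) :=
          mul_le_mul_of_nonneg_left (mul_le_mul_of_nonneg_left e5 hs0) (by positivity)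
      _ = P ^ q * (c0 * P ^ (r / 2)) := by rw [hc0]; ring
      _ ≤ P ^ q * (P ^ (r / 2) * P ^ (r / 2)) :=
          mul_le_mul_of_nonneg_left (mul_le_mul_of_nonneg_right (a11 P hP) (by positivity))
            (by positivity)
  · intro P hP ε L hε hL u hu u' hu' v _ huu
    obtain ⟨i, hE⟩ := hT1 P (a1 P hP) u hu u' hu' huu
    have he : 0 < |S u p - S u' p| :=
      lt_of_lt_of_le one_pos (hD1 P (a3 P hP) u hu u' hu' huu)
    have b1 := FUa_kap h.hpq h.hq hε hL he one_pos hE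
    have e1 : (fun t => om p q t * kap ε L (vl t (u, v) - vl t (u', v))) =
        fun t => om p q t * kap ε L (1 * (S u t - S u' t)) := by
      funext t
      have e2 : vl t (u, v) - vl t (u', v) = 1 * (S u t - S u' t) := by
        unfold vl
        ring
      rw [e2]
    rw [e1]
    refine b1.trans (mul_le_mul_of_nonneg_right ?_ (by positivity))
    rw [div_one]
    exact le_max_left _ _
  · intro P hP ε L hε hL u _ v hv v' hv' hvv
    obtain ⟨i, hE⟩ := hTb P (a2 P hP) v hv v' hv' hvv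
    have he : 0 < |S v p - S v' p| :=
      lt_of_lt_of_le one_pos (hDb P (a4 P hP) v hv v' hv' hvv)
    have b1 := FUa_kap h.hpq h.hq hε hL he one_pos hE
    have e1 : (fun t => om p q t * kap ε L (vl t (u, v) - vl t (u, v'))) =
        fun t => om p q t * kap ε L (1 * (S v t - S v' t)) := by
      funext t
      have e2 : vl t (u, v) - vl t (u, v') = 1 * (S v t - S v' t) := by
        unfold vl
        ring
      rw [e2]
    rw [e1]
    refine b1.trans (mul_le_mul_of_nonneg_right ?_ (by positivity))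
    rw [div_one]
    exact le_max_left _ _
  · intro P hP ε L hε hL u hu u' hu' v hv v' hv' huu hvv
    obtain ⟨i, hE⟩ := hT1 P (a1 P hP) u hu u' hu' huu
    obtain ⟨j, hF⟩ := hTb P (a2 P hP) v hv v' hv' hvv
    have he : 0 < |S u p - S u' p| :=
      lt_of_lt_of_le one_pos (hD1 P (a3 P hP) u hu u' hu' huu)
    have he' : 0 < |S v p - S v' p| := lt_of_lt_of_le one_pos (hDb P (a4 P hP) v hv v' hv' hvv)
    have hPpos : 0 < P := by linarith [a8 P hP]
    have hσi : σ ^ (i : ℕ) ≤ 1 := pow_le_one₀ h.hσ.le hσ1.le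
    have hσi0 : 0 < σ ^ (i : ℕ) := pow_pos h.hσ _
    have hσj : σ ^ (j : ℕ) ≤ 1 := pow_le_one₀ h.hσ.le hσ1.le
    have hσj0 : 0 < σ ^ (j : ℕ) := pow_pos h.hσ _
    have c1 : (1 : ℝ) ≤ 12 * 1100 / th := by
      rw [le_div_iff₀ hth]
      linarith
    have c2 : (1 : ℝ) ≤ 16 ^ q := Real.one_le_rpow (by norm_num) (by linarith)
    have c3 : (1 : ℝ) ≤ P ^ (q - p) := Real.one_le_rpow (a8 P hP) (by linarith [h.hpq])
    have c4 : (1 : ℝ) ≤ 4 * q * 16 ^ q * P ^ (q - p) :=
      one_le_mul_of_one_le_of_one_le (one_le_mul_of_one_le_of_one_le (by linarith) c2) c3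
    have b1 := pairU h.hpq h.hq hε hL hth hth1 (by norm_num : (1 : ℝ) ≤ 1100) c4
      (mul_pos one_pos hσi0) (by linarith) (mul_pos hb0 hσj0) (by nlinarith [h.hb]) (hsep i j)
      (a10 P hP) (c1.trans (a10 P hP)) he he' hE hF
    have e1 : (fun t => om p q t * kap ε L (vl t (u, v) - vl t (u', v'))) =
        fun t => om p q t * kap ε L ((S u t - S u' t) + (S v t - S v' t)) := by
      funext t
      have e2 : vl t (u, v) - vl t (u', v') = (S u t - S u' t) + (S v t - S v' t) := by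
        unfold vl
        ring
      rw [e2]
    rw [e1]
    refine b1.trans ?_
    have e3 : 7200 * 1100 / th ^ 3 * (4 * q * 16 ^ q * P ^ (q - p)) * L /
        (|S u p - S u' p| * |S v p - S v' p|) =
        K0 * P ^ (q - p) * L * (1 / |S u p - S u' p| * (1 / |S v p - S v' p|)) := by
      rw [hK0]
      field_simp
    rw [e3]
    have hL0 : 0 ≤ L := hε.le.trans hL
    refine mul_le_mul_of_nonneg_right (mul_le_mul_of_nonneg_right
      (mul_le_mul_of_nonneg_right (le_max_right _ _) (by positivity)) hL0) (by positivity)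

end Pool.Agent.Lib.MP_570bef_ntXD
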