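import Mathlib
import Pool.Agent.Lib.MP_570bef_ntXD.Defs

/-!
# LEAF PR: the parameters

See `par_small` in `MP_570bef_ntM/SMp.lean` (same method: strict inequalities between continuous functions of a small `x > 0`, true at `x = 0`; there the variable is called `δ`).
`σ0 = 1 - 1/θ₀ ∈ (0, 1)`, `y = σ0^s`, `2 y < D ≤ 1`, so `s ≥ 1`. Fix `d` with `2 y < d < D` (so `0 < d ≤ 1`), `k0 = min (η/2) (θ₀/2) > 0`, `l = θ₀ - k0 > 0`, a natural number `n ≥ 1` with `l/n < k0` (`exists_nat_gt (l/k0)`).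
For `x > 0` small: `p = θ₀ - x`, `q = θ₀ + x`, `σ = 1 - 1/p - x`, `b = 1 - x`, `r = x`, `δ = x`, and `κ` = one half of the minimum of the two slacks at `x = 0`:
`e1` at `x = 0` (`mu = 2 θ₀ (1 - y)`): `l - 2θ₀(1-y) + (1-d)θ₀ = (l - θ₀) - θ₀ (d - 2y) < 0`.
`e3` at `x = 0` (`be = (θ₀ - 1) y/σ0 = θ₀ y`): `l - 2θ₀(1-y) + l/n - 2 θ₀ y + (1-d)θ₀ + d l = (1+d)(l - θ₀) + l/n = -(1+d) k0 + l/n < 0`.
`hδb`: `x ≤ (1-x) be`, true for small `x` as `be → θ₀ y > 0`. `q - l = x + k0 ≤ η` for `x ≤ η/2`. `gap`: `σ p = p - 1 - x p < p - 1`.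
-/

set_option autoImplicit false

namespace Pool.Agent.Lib.MP_570bef_ntXD

theorem par_X {θ₀ : ℝ} (h : 1 < θ₀) {s : ℕ} {D : ℝ} (hD : D ≤ 1) (hs : 2 * (1 - 1 / θ₀) ^ s < D)
    {η : ℝ} (hη : 0 < η) :
    ∃ (p q σ b l d r δ κ : ℝ) (n : ℕ), PB s p q σ b ∧ PX s n p q σ b l d r δ κ ∧
      p < θ₀ ∧ θ₀ < q ∧ q - l ≤ η ∧ d < D := by
  obtain ⟨c, hcθ⟩ : ∃ c : ℝ, c = θ₀ := ⟨θ₀, rfl⟩
  rw [← hcθ] at h hs ⊢
  have hc0 : 0 < c := by linarith
  have hs1 : 1 ≤ s := by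
    rcases Nat.eq_zero_or_pos s with h' | h'
    · rw [h', pow_zero] at hs
      linarith
    · exact h'
  obtain ⟨σ0, hσ0⟩ : ∃ σ0 : ℝ, σ0 = 1 - 1 / c := ⟨_, rfl⟩
  rw [← hσ0] at hs
  have hinv : 1 / c < 1 := by
    rw [div_lt_one hc0]
    exact h
  have hinv0 : 0 < 1 / c := by positivity
  have hσpos : 0 < σ0 := by linarith
  have hσlt : σ0 < 1 := by linarith
  have hy : 0 < σ0 ^ s := pow_pos hσpos s
  obtain ⟨d, hd1, hd2⟩ := exists_between hs
  obtain ⟨k0, hk0⟩ : ∃ k0 : ℝ, k0 = min (η / 2) (c / 2) := ⟨_, rfl⟩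
  have hk0p : 0 < k0 := by rw [hk0]; exact lt_min (by linarith) (by linarith)
  have hk1 : k0 ≤ η / 2 := by rw [hk0]; exact min_le_left _ _
  have hk2 : k0 ≤ c / 2 := by rw [hk0]; exact min_le_right _ _
  obtain ⟨l, hl⟩ : ∃ l : ℝ, l = c - k0 := ⟨_, rfl⟩
  have hlpos : 0 < l := by linarith
  obtain ⟨n, hn⟩ := exists_nat_gt (l / k0)
  have hnpos : (0 : ℝ) < n := lt_trans (div_pos hlpos hk0p) hn
  have hn1 : 1 ≤ n := by
    have : 0 < n := by exact_mod_cast hnpos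
    exact this
  have hln : l / n < k0 := by
    rw [div_lt_iff₀ hnpos]
    rw [div_lt_iff₀ hk0p] at hn
    linarith
  have hcd : 0 < c * (d - 2 * σ0 ^ s) := mul_pos hc0 (by linarith)
  have hd0 : 0 < d := by linarith
  have hdk : 0 < d * k0 := mul_pos hd0 hk0p
  obtain ⟨κ, hκ⟩ : ∃ κ : ℝ, κ = min (k0 + c * (d - 2 * σ0 ^ s)) ((1 + d) * k0 - l / n) / 2 := ⟨_, rfl⟩
  have hm : 0 < min (k0 + c * (d - 2 * σ0 ^ s)) ((1 + d) * k0 - l / n) :=
    lt_min (by linarith) (by nlinarith)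
  have hκ0 : 0 < κ := by rw [hκ]; linarith
  have hκ1 : κ < k0 + c * (d - 2 * σ0 ^ s) := by
    have := min_le_left (k0 + c * (d - 2 * σ0 ^ s)) ((1 + d) * k0 - l / n)
    linarith
  have hκ2 : κ < (1 + d) * k0 - l / n := by
    have := min_le_right (k0 + c * (d - 2 * σ0 ^ s)) ((1 + d) * k0 - l / n)
    linarith
  have z0 : (1 : ℝ) - 1 / (c - 0) - 0 = σ0 := by rw [hσ0, sub_zero, sub_zero]
  have hne1 : c - 0 ≠ 0 := by rw [sub_zero]; exact hc0.ne'
  have cx : ContinuousAt (fun x : ℝ => x) 0 := continuousAt_id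
  have cp : ContinuousAt (fun x : ℝ => c - x) 0 := by fun_prop
  have cq : ContinuousAt (fun x : ℝ => c + x) 0 := by fun_prop
  have cb : ContinuousAt (fun x : ℝ => 1 - x) 0 := by fun_prop
  have cσ : ContinuousAt (fun x : ℝ => 1 - 1 / (c - x) - x) 0 :=
    (continuousAt_const.sub (continuousAt_const.div cp hne1)).sub continuousAt_id
  have cA : ContinuousAt (fun x : ℝ => (1 - (1 - 1 / (c - x) - x) ^ s) /
      (1 - (1 - 1 / (c - x) - x))) 0 := by
    refine (continuousAt_const.sub (cσ.pow s)).div (continuousAt_const.sub cσ) ?_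
    rw [z0]
    linarith
  have cB : ContinuousAt (fun x : ℝ => ((c - x) - 1) * (1 - 1 / (c - x) - x) ^ s /
      (1 - 1 / (c - x) - x)) 0 := by
    refine ((cp.sub continuousAt_const).mul (cσ.pow s)).div cσ ?_
    rw [z0]
    exact hσpos.ne'
  have v1 : (1 - σ0 ^ s) / (1 - σ0) = c * (1 - σ0 ^ s) := by
    have : 1 - σ0 = 1 / c := by rw [hσ0]; ring
    rw [this]
    field_simp
  have v2 : (c - 1) * σ0 ^ s / σ0 = c * σ0 ^ s := by
    have h1 : c - 1 = c * σ0 := by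
      rw [hσ0]
      field_simp
    rw [h1]
    field_simp
  have g1 : ∀ᶠ x : ℝ in nhds 0, 1 < c - x :=
    continuousAt_const.eventually_lt cp (by rw [sub_zero]; exact h)
  have g2 : ∀ᶠ x : ℝ in nhds 0, c + x < (c - x) + 1 :=
    cq.eventually_lt (cp.add continuousAt_const) (by rw [sub_zero, add_zero]; linarith)
  have g3 : ∀ᶠ x : ℝ in nhds 0, 0 < 1 - 1 / (c - x) - x :=
    continuousAt_const.eventually_lt cσ (by rw [z0]; exact hσpos)
  have g4 : ∀ᶠ x : ℝ in nhds 0, 1 - 1 / (c - x) - x < 1 - x :=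
    cσ.eventually_lt cb (by rw [z0, sub_zero]; exact hσlt)
  have g5 : ∀ᶠ x : ℝ in nhds 0, x < η / 2 :=
    cx.eventually_lt continuousAt_const (by linarith)
  have g6 : ∀ᶠ x : ℝ in nhds 0, x < (1 - x) * (((c - x) - 1) * (1 - 1 / (c - x) - x) ^ s /
      (1 - 1 / (c - x) - x)) := by
    refine cx.eventually_lt (cb.mul cB) ?_
    show (0 : ℝ) < (1 - 0) * (((c - 0) - 1) * (1 - 1 / (c - 0) - 0) ^ s / (1 - 1 / (c - 0) - 0))
    rw [z0, sub_zero, sub_zero, v2, one_mul]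
    exact mul_pos hc0 hy
  have g7 : ∀ᶠ x : ℝ in nhds 0, l - (1 + (1 - x)) * ((1 - (1 - 1 / (c - x) - x) ^ s) /
      (1 - (1 - 1 / (c - x) - x))) + (1 - d) * ((c + x) + x) + κ < 0 := by
    refine (((continuousAt_const.sub ((continuousAt_const.add cb).mul cA)).add
      (continuousAt_const.mul (cq.add cx))).add continuousAt_const).eventually_lt continuousAt_const ?_
    show l - (1 + (1 - 0)) * ((1 - (1 - 1 / (c - 0) - 0) ^ s) /
      (1 - (1 - 1 / (c - 0) - 0))) + (1 - d) * ((c + 0) + 0) + κ < 0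
    rw [z0, v1, sub_zero, add_zero, add_zero, hl]
    nlinarith
  have g8 : ∀ᶠ x : ℝ in nhds 0, l - (1 + (1 - x)) * ((1 - (1 - 1 / (c - x) - x) ^ s) /
      (1 - (1 - 1 / (c - x) - x))) + ((c + x) - (c - x)) + l / n + 2 * x -
      (1 + (1 - x)) * (((c - x) - 1) * (1 - 1 / (c - x) - x) ^ s / (1 - 1 / (c - x) - x)) +
      (1 - d) * ((c + x) + x) + d * l + κ < 0 := by
    refine ((((((((continuousAt_const.sub ((continuousAt_const.add cb).mul cA)).add
      (cq.sub cp)).add continuousAt_const).add (continuousAt_const.mul cx)).sub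
      ((continuousAt_const.add cb).mul cB)).add
      (continuousAt_const.mul (cq.add cx))).add continuousAt_const).add
      continuousAt_const).eventually_lt continuousAt_const ?_
    show l - (1 + (1 - 0)) * ((1 - (1 - 1 / (c - 0) - 0) ^ s) /
      (1 - (1 - 1 / (c - 0) - 0))) + ((c + 0) - (c - 0)) + l / n + 2 * 0 -
      (1 + (1 - 0)) * (((c - 0) - 1) * (1 - 1 / (c - 0) - 0) ^ s / (1 - 1 / (c - 0) - 0)) +
      (1 - d) * ((c + 0) + 0) + d * l + κ < 0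
    rw [z0, v1, sub_zero, add_zero, add_zero, sub_zero, v2]
    have e : l = c - k0 := hl
    nlinarith
  have hall := (((((((g1.and g2).and g3).and g4).and g5).and g6).and g7).and g8)
  have hall' : ∀ᶠ x : ℝ in nhdsWithin 0 (Set.Ioi 0), _ := hall.filter_mono nhdsWithin_le_nhds
  obtain ⟨x, ⟨⟨⟨⟨⟨⟨⟨⟨h1, h2⟩, h3⟩, h4⟩, h5⟩, h6⟩, h7⟩, h8⟩, hx⟩⟩ :=
    (hall'.and self_mem_nhdsWithin).exists
  have hx0 : 0 < x := hx
  have hp0 : c - x ≠ 0 := by linarith
  have h10 : (1 - 1 / (c - x) - x) * (c - x) = (c - x) - 1 - x * (c - x) := by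
    field_simp
  have h11 : 0 < x * (c - x) := mul_pos hx0 (by linarith)
  refine ⟨c - x, c + x, 1 - 1 / (c - x) - x, 1 - x, l, d, x, x, κ, n,
    ⟨hs1, h1, by linarith, h2.le, h3, h4, by linarith, by rw [h10]; linarith⟩,
    ⟨hn1, hlpos, by linarith, hd0, by linarith, hx0, hx0, ?_, hκ0, ?_, ?_⟩,
    by linarith, by linarith, by linarith, hd2⟩
  · unfold be
    exact h6.le
  · unfold mu
    exact h7.le
  · unfold mu be
    exact h8.le

end Pool.Agent.Lib.MP_570bef_ntXD
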