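import Mathlib
import Pool.Agent.Lib.MP_570bef_ntXD.ASa
import Pool.Agent.Lib.MP_570bef_ntXD.ASb
import Pool.Agent.Lib.MP_570bef_ntXD.CH
import Pool.Agent.Lib.MP_570bef_ntXD.FUa
import Pool.Agent.Lib.MP_570bef_ntXD.PR

/-!
# LEAF ASc: the second moment statement

`par_X` with `η/2`: parameters with `p < θ₀ < q`, `q - l ≤ η/2`, `d < D`. `fam_U` gives `K`, `P1`. `a' = (p + θ₀)/2`, `b' = (θ₀ + q)/2`, `Z = ⋃ j ∈ Finset.range n` (or `⋃ j : Fin n`) of the sets of `bad_dim`: `dimH Z ≤ ofReal d < ofReal D`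
(`dimH_iUnion` over `Fin n`, `iSup_le`; `0 < d < D`). `ε = min (θ₀ - a') (b' - θ₀)`, `T m = XX s σ b (2^m)`, `C = 2 s 16^θ`.
For `θ ∈ Ioo`, `θ ∉ Z`: `θ ∈ [a', b'] ⊆ [p, q]`, `θ > 1`; for every `j < n` there is `J` with `θ ∉ bad .. j m` for `m ≥ J`; take the maximum over `j < n` (`Filter.eventually_all`/`Finset.sup`). For large `m` (`P = 2^m ≥ P1`, `3 ≤ P^(l/n)`):
if `1296^n (card²/sc 0) < QQ (sc n) XX (vl θ)` then `chain` with `w j = sc s n l P j` (`sc (j+1) * P^(l/n) = sc j`, so `3 sc (j+1) ≤ sc j`) gives `j < n`; for `t' ∈ [p, q]` with `|θ - t'| ≤ P^(-(q+r-l'))`, `l' = l (1 - (j+1)/n)`: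
`|vl θ x - vl t' x| ≤ P^(q+r) P^(-(q+r-l')) = P^l' ≤ sc (j+1)` (`FU.lip`), so `θ ∈ bad .. j m`, contradiction. So `QQ (4s+2) ≤ 1296^n card²/((4s+2) P^l)` (`sc n = 4 s + 2`, `sc 0 = (4s+2) P^l`) and by `jt_q`
`JT ≤ 2 * 1296^n card² P^(-l) ≤ card² P^(-θ+η)`, as `-l ≤ -q + η/2 ≤ -θ + η/2` and `2 * 1296^n ≤ P^(η/2)` for large `m`.
-/

set_option autoImplicit false

namespace Pool.Agent.Lib.MP_570bef_ntXD

open Finset
open Pool.Agent.Lib.MP_570bef_ntM (val JT)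
open Pool.Agent.Lib.MP_570bef_ntRE (XX)

theorem smd : SMD := by
  intro s θ₀ η D hθ hD hs hη
  obtain ⟨p, q, σ, b, l, d, r, δ, κ, n, hB, hX, hp, hq, hql, hdD⟩ :=
    par_X hθ hD hs (half_pos hη)
  obtain ⟨K, P1, hF⟩ := fam_U hB hX.hr
  have hn : 1 ≤ n := hX.hn
  have hl : 0 < l := hX.hl
  have hnR : (0 : ℝ) < n := by exact_mod_cast hn
  have hp1 := hB.hp
  let Z : Fin n → Set ℝ := fun j =>
    {t | ∀ J : ℕ, ∃ m ≥ J, t ∈ bad s n p q σ b l r ((p + θ₀) / 2) ((θ₀ + q) / 2) j m}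
  have hdim : dimH (⋃ j, Z j) ≤ ENNReal.ofReal d := by
    rw [dimH_iUnion]
    exact iSup_le fun j => bad_dim hB hX hF (by linarith) (by linarith) j.2
  have hε₀ : 0 < min ((θ₀ - p) / 2) ((q - θ₀) / 2) := lt_min (by linarith) (by linarith)
  refine ⟨min ((θ₀ - p) / 2) ((q - θ₀) / 2), hε₀, ⋃ j, Z j,
    hdim.trans_lt ((ENNReal.ofReal_lt_ofReal_iff_of_nonneg hX.hd.le).2 hdD), ?_⟩
  intro θ hθ' hZ
  have hm1 := min_le_left ((θ₀ - p) / 2) ((q - θ₀) / 2)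
  have hm2 := min_le_right ((θ₀ - p) / 2) ((q - θ₀) / 2)
  have hθ1 := hθ'.1
  have hθ2 := hθ'.2
  have hIcc : θ ∈ Set.Icc ((p + θ₀) / 2) ((θ₀ + q) / 2) := ⟨by linarith, by linarith⟩
  have hIcc' : θ ∈ Set.Icc p q := ⟨by linarith, by linarith⟩
  have hbad : ∀ᶠ m : ℕ in Filter.atTop, ∀ j ∈ Finset.range n,
      θ ∉ bad s n p q σ b l r ((p + θ₀) / 2) ((θ₀ + q) / 2) j m := by
    rw [Filter.eventually_all_finset]
    intro j hj
    rw [Filter.eventually_atTop]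
    by_contra hcon
    push Not at hcon
    exact hZ (Set.mem_iUnion.2 ⟨⟨j, Finset.mem_range.1 hj⟩, fun J => hcon J⟩)
  refine ⟨fun m => XX s σ b ((2 : ℝ) ^ m), 2 * s * 16 ^ θ, ?_⟩
  have h2 : Filter.Tendsto (fun j : ℕ => (2 : ℝ) ^ j) Filter.atTop Filter.atTop :=
    tendsto_pow_atTop_atTop_of_one_lt one_lt_two
  have h3 : Filter.Tendsto (fun j : ℕ => ((2 : ℝ) ^ j) ^ (η / 2)) Filter.atTop
      Filter.atTop := (tendsto_rpow_atTop (half_pos hη)).comp h2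
  have h4 : Filter.Tendsto (fun j : ℕ => ((2 : ℝ) ^ j) ^ (l / n)) Filter.atTop
      Filter.atTop := (tendsto_rpow_atTop (div_pos hl hnR)).comp h2
  filter_upwards [hbad, h2.eventually_ge_atTop P1, h3.eventually_ge_atTop (2 * 1296 ^ n),
    h4.eventually_ge_atTop 3] with m hbm hmP hmη hm3
  have hP1 : (1 : ℝ) ≤ (2 : ℝ) ^ m := one_le_pow₀ one_le_two
  have hP0 : (0 : ℝ) < (2 : ℝ) ^ m := by positivity
  refine ⟨xx_ne hB _ hP1, fun t ht => val_up hB _ hP1 θ (by linarith) t ht, ?_⟩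
  obtain ⟨P, hP⟩ : ∃ P : ℝ, P = (2 : ℝ) ^ m := ⟨_, rfl⟩
  rw [← hP] at hmP hmη hm3 hP1 hP0 ⊢
  have hsc0 : sc s n l P 0 = (4 * s + 2) * P ^ l := by
    unfold sc
    rw [Nat.cast_zero, zero_div, sub_zero, mul_one]
  have hscn : sc s n l P n = 4 * s + 2 := by
    unfold sc
    rw [div_self hnR.ne', sub_self, mul_zero, Real.rpow_zero, mul_one]
  have hw : ∀ j ≤ n, 0 < sc s n l P j := fun j _ => by
    unfold sc
    exact mul_pos (by positivity) (Real.rpow_pos_of_pos hP0 _)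
  have hw3 : ∀ j < n, 3 * sc s n l P (j + 1) ≤ sc s n l P j := fun j _ => by
    have e : l * (1 - (j : ℝ) / n) = l / n + l * (1 - ((j + 1 : ℕ) : ℝ) / n) := by
      rw [Nat.cast_add, Nat.cast_one]
      ring
    unfold sc
    rw [e, Real.rpow_add hP0]
    have h5 : 0 ≤ (4 * (s : ℝ) + 2) * P ^ (l * (1 - ((j + 1 : ℕ) : ℝ) / n)) :=
      mul_nonneg (by positivity) (Real.rpow_nonneg hP0.le _)
    calc 3 * ((4 * (s : ℝ) + 2) * P ^ (l * (1 - ((j + 1 : ℕ) : ℝ) / n)))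
        ≤ P ^ (l / n) * ((4 * (s : ℝ) + 2) * P ^ (l * (1 - ((j + 1 : ℕ) : ℝ) / n))) :=
          mul_le_mul_of_nonneg_right hm3 h5
      _ = (4 * (s : ℝ) + 2) * (P ^ (l / n) * P ^ (l * (1 - ((j + 1 : ℕ) : ℝ) / n))) := by ring
  have hQ : QQ (4 * s + 2) (XX s σ b P) (vl θ) ≤
      1296 ^ n * (((XX s σ b P).card : ℝ) ^ 2 / sc s n l P 0) := by
    by_contra hcon
    rw [not_le] at hcon
    rw [← hscn] at hcon
    obtain ⟨j, hj, hch⟩ := chain (XX s σ b P) (sc s n l P) n hw hw3 (vl θ) hcon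
    refine hbm j (Finset.mem_range.2 hj) ⟨hIcc, fun t' ht' hd => ?_⟩
    rw [← hP] at hd ⊢
    refine hch (vl t') fun x hx => ?_
    have h5 := hF.lip P hmP x hx θ hIcc' t' ht'
    have h6 := mul_le_mul_of_nonneg_left hd (Real.rpow_nonneg hP0.le (q + r))
    have h7 : P ^ (q + r) * P ^ (-(q + r - l * (1 - ((j + 1 : ℕ) : ℝ) / n))) =
        P ^ (l * (1 - ((j + 1 : ℕ) : ℝ) / n)) := by
      rw [← Real.rpow_add hP0]
      congr 1
      ring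
    rw [h7] at h6
    refine (h5.trans h6).trans ?_
    unfold sc
    refine le_mul_of_one_le_left (Real.rpow_nonneg hP0.le _) ?_
    have h8 : (0 : ℝ) ≤ s := Nat.cast_nonneg s
    linarith
  have hJ := jt_q s σ b P θ
  refine hJ.trans ?_
  have hc2 : (0 : ℝ) ≤ ((XX s σ b P).card : ℝ) ^ 2 := sq_nonneg _
  have hs2 : (0 : ℝ) < 4 * s + 2 := by positivity
  have h5 := mul_le_mul_of_nonneg_left hQ (by positivity : (0 : ℝ) ≤ 2 * (4 * s + 2))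
  refine h5.trans ?_
  rw [hsc0]
  have e1 : 2 * (4 * (s : ℝ) + 2) * (1296 ^ n * (((XX s σ b P).card : ℝ) ^ 2 /
      ((4 * s + 2) * P ^ l))) = ((XX s σ b P).card : ℝ) ^ 2 * (2 * 1296 ^ n * P ^ (-l)) := by
    rw [Real.rpow_neg hP0.le]
    have h6 : P ^ l ≠ 0 := (Real.rpow_pos_of_pos hP0 l).ne'
    field_simp
  rw [e1]
  refine mul_le_mul_of_nonneg_left ?_ hc2
  calc 2 * 1296 ^ n * P ^ (-l) ≤ P ^ (η / 2) * P ^ (-l) :=
        mul_le_mul_of_nonneg_right hmη (Real.rpow_nonneg hP0.le _)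
    _ = P ^ (η / 2 + -l) := (Real.rpow_add hP0 _ _).symm
    _ ≤ P ^ (-θ + η) := Real.rpow_le_rpow_of_exponent_le hP1 (by linarith [hIcc'.2])

end Pool.Agent.Lib.MP_570bef_ntXD
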