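import Mathlib
import Pool.Agent.Lib.MP_570bef_ntXD.Defs
import Pool.Agent.Lib.MP_570bef_ntM.RepF
import Pool.Agent.Lib.MP_570bef_ntM.DimB

/-!
# LEAF FNa: from the second moment statement to compact intervals

Copy `local_dim`, `pow_half`, `local_dim'`, `compact_dim` (`MP_570bef_ntM/DimA.lean`, `DimB.lean`, `DimC.lean`) with `1/2` replaced by `D/2`, `log 2` by `log (2/D)` (`0 < D ≤ 1`, so `log (2/D) ≥ log 2 > 0`), `1` by `ENNReal.ofReal D` (`> 0`).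
-/

set_option autoImplicit false

namespace Pool.Agent.Lib.MP_570bef_ntXD

open Pool.Agent.Lib.MP_570bef_ntM

private theorem FNa_local (hSM : SMD) {D : ℝ} (hD : 0 < D) (hD1 : D ≤ 1) (s : ℕ) (θ₀ : ℝ) (h1 : 1 < θ₀)
    (hs : (1 - 1 / θ₀) ^ s < D / 2) :
    ∃ ε : ℝ, 0 < ε ∧
      dimH {θ : ℝ | θ ∈ Set.Ioo (θ₀ - ε) (θ₀ + ε) ∧ ¬ WF θ (4 * s + 2)} < ENNReal.ofReal D := by
  set Q : ℕ := ⌈θ₀⌉₊ + 1 with hQ
  have hQ1 : 1 ≤ Q := by omega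
  have hQ0 : (0 : ℝ) < Q := by exact_mod_cast hQ1
  have hη : (0 : ℝ) < 1 / (16 * Q * 2 ^ Q) := by positivity
  obtain ⟨ε, hε, Z, hZ, hfam⟩ := hSM s θ₀ (1 / (16 * Q * 2 ^ Q)) D h1 hD1 (by linarith) hη
  have hε' : 0 < min ε (min 1 (θ₀ - 1)) := lt_min hε (lt_min one_pos (by linarith))
  refine ⟨min ε (min 1 (θ₀ - 1)), hε', ?_⟩
  have hsub : {θ : ℝ | θ ∈ Set.Ioo (θ₀ - min ε (min 1 (θ₀ - 1))) (θ₀ + min ε (min 1 (θ₀ - 1))) ∧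
      ¬ WF θ (4 * s + 2)} ⊆ Z ∪ Set.range (Nat.cast : ℕ → ℝ) := by
    rintro θ ⟨⟨ha, hb⟩, hW⟩
    by_contra hno
    rw [Set.mem_union, not_or] at hno
    obtain ⟨hnZ, hnN⟩ := hno
    apply hW
    have hm1 : min ε (min 1 (θ₀ - 1)) ≤ ε := min_le_left _ _
    have hm2 : min ε (min 1 (θ₀ - 1)) ≤ 1 := (min_le_right _ _).trans (min_le_left _ _)
    have hm3 : min ε (min 1 (θ₀ - 1)) ≤ θ₀ - 1 := (min_le_right _ _).trans (min_le_right _ _)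
    have hk : ∀ k : ℕ, θ ≠ k := fun k hk => hnN ⟨k, hk.symm⟩
    have hθ1 : 1 < θ := by linarith
    have hθQ : θ ≤ Q := by
      have h2 : θ₀ ≤ (⌈θ₀⌉₊ : ℝ) := Nat.le_ceil θ₀
      rw [hQ]
      push_cast
      linarith
    obtain ⟨T, C, hT⟩ := hfam θ ⟨by linarith, by linarith⟩ hnZ
    exact wf_of_family Q hQ1 θ hk hθ1 hθQ s T C hT
  refine lt_of_le_of_lt (dimH_mono hsub) ?_
  rw [dimH_union, (Set.countable_range (Nat.cast : ℕ → ℝ)).dimH_zero]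
  exact max_lt hZ (ENNReal.ofReal_pos.2 hD)

private theorem FNa_pow {D : ℝ} (hD : 0 < D) (θ₀ : ℝ) (s : ℕ) (h1 : 1 < θ₀) (hs1 : 1 ≤ s)
    (hs : θ₀ * Real.log (2 / D) ≤ s) : (1 - 1 / θ₀) ^ s < D / 2 := by
  have h0 : 0 < θ₀ := by linarith
  have h2 : (1 : ℝ) / θ₀ < 1 := by rw [div_lt_one h0]; exact h1
  have h3 : 0 ≤ 1 - 1 / θ₀ := by linarith
  have h4 : 1 - 1 / θ₀ < Real.exp (-(1 / θ₀)) := by
    have h5 : (-(1 / θ₀)) ≠ 0 := by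
      have : 0 < 1 / θ₀ := by positivity
      linarith
    have := Real.add_one_lt_exp h5
    linarith
  calc (1 - 1 / θ₀) ^ s < Real.exp (-(1 / θ₀)) ^ s := pow_lt_pow_left₀ h4 h3 (by omega)
    _ = Real.exp (-(s / θ₀)) := by
        rw [← Real.exp_nat_mul]
        congr 1
        ring
    _ ≤ Real.exp (-Real.log (2 / D)) := by
        refine Real.exp_le_exp.2 (neg_le_neg ?_)
        rw [le_div_iff₀ h0]
        linarith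
    _ = D / 2 := by
        rw [Real.exp_neg, Real.exp_log (by positivity), inv_div]

private theorem FNa_local' (hSM : SMD) {D : ℝ} (hD : 0 < D) (hD1 : D ≤ 1) (θ₀ : ℝ) (h1 : 1 < θ₀) :
    ∃ ε : ℝ, 0 < ε ∧
      dimH {θ : ℝ | θ ∈ Set.Ioo (θ₀ - ε) (θ₀ + ε) ∧ ¬ WF θ (4 * ⌊θ * Real.log (2 / D)⌋₊ + 6)} <
        ENNReal.ofReal D := by
  have hl : 0 < Real.log (2 / D) := by
    refine Real.log_pos ?_
    rw [lt_div_iff₀ hD]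
    linarith
  have h0 : 0 < θ₀ * Real.log (2 / D) := by positivity
  obtain ⟨s, hs⟩ : ∃ s : ℕ, s = ⌈θ₀ * Real.log (2 / D)⌉₊ := ⟨_, rfl⟩
  have hs1 : 1 ≤ s := by
    rw [hs]
    exact Nat.ceil_pos.2 h0
  have hsle : θ₀ * Real.log (2 / D) ≤ s := by
    rw [hs]
    exact Nat.le_ceil _
  have hslt : (s : ℝ) < θ₀ * Real.log (2 / D) + 1 := by
    rw [hs]
    exact Nat.ceil_lt_add_one h0.le
  obtain ⟨ε, hε, hd⟩ := FNa_local hSM hD hD1 s θ₀ h1 (FNa_pow hD θ₀ s h1 hs1 hsle)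
  obtain ⟨ε₂, hε₂⟩ : ∃ ε₂ : ℝ, ε₂ = (θ₀ * Real.log (2 / D) + 1 - s) / Real.log (2 / D) := ⟨_, rfl⟩
  have hε₂0 : 0 < ε₂ := by
    rw [hε₂]
    exact div_pos (by linarith) hl
  have hε₂1 : ε₂ * Real.log (2 / D) = θ₀ * Real.log (2 / D) + 1 - s := by
    rw [hε₂, div_mul_cancel₀ _ hl.ne']
  refine ⟨min ε (min ε₂ (θ₀ - 1)), lt_min hε (lt_min hε₂0 (by linarith)), ?_⟩
  refine lt_of_le_of_lt (dimH_mono ?_) hd
  intro θ hθ
  obtain ⟨⟨hθ1, hθ2⟩, hθ3⟩ := hθ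
  have m1 : min ε (min ε₂ (θ₀ - 1)) ≤ ε := min_le_left _ _
  have m2 : min ε (min ε₂ (θ₀ - 1)) ≤ ε₂ := (min_le_right _ _).trans (min_le_left _ _)
  have m3 : min ε (min ε₂ (θ₀ - 1)) ≤ θ₀ - 1 := (min_le_right _ _).trans (min_le_right _ _)
  refine ⟨⟨by linarith, by linarith⟩, fun hW => hθ3 ?_⟩
  have hθ0 : 0 < θ := by linarith
  have h5 : (s : ℝ) - 1 ≤ θ * Real.log (2 / D) := by
    have h6 : (θ₀ - ε₂) * Real.log (2 / D) ≤ θ * Real.log (2 / D) :=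
      mul_le_mul_of_nonneg_right (by linarith) hl.le
    have h7 : (θ₀ - ε₂) * Real.log (2 / D) = θ₀ * Real.log (2 / D) - ε₂ * Real.log (2 / D) := by ring
    linarith
  have h8 : s - 1 ≤ ⌊θ * Real.log (2 / D)⌋₊ := by
    refine Nat.le_floor ?_
    rw [Nat.cast_sub hs1, Nat.cast_one]
    exact h5
  exact wf_mono θ hθ0 (4 * s + 2) _ (by omega) hW

theorem compact_D (hSM : SMD) {D : ℝ} (hD : 0 < D) (hD1 : D ≤ 1) (A B : ℝ) (hA : 1 < A) :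
    dimH {θ : ℝ | θ ∈ Set.Icc A B ∧ ¬ WF θ (4 * ⌊θ * Real.log (2 / D)⌋₊ + 6)} <
      ENNReal.ofReal D := by
  refine IsCompact.induction_on (isCompact_Icc (a := A) (b := B))
    (p := fun S : Set ℝ => dimH {θ : ℝ | θ ∈ S ∧ ¬ WF θ (4 * ⌊θ * Real.log (2 / D)⌋₊ + 6)} < ENNReal.ofReal D)
    ?_ ?_ ?_ ?_
  · have h : {θ : ℝ | θ ∈ (∅ : Set ℝ) ∧ ¬ WF θ (4 * ⌊θ * Real.log (2 / D)⌋₊ + 6)} = ∅ := by
      ext θ
      simp
    rw [h, dimH_empty]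
    exact ENNReal.ofReal_pos.2 hD
  · intro s t hst ht
    refine lt_of_le_of_lt (dimH_mono ?_) ht
    intro θ hθ
    exact ⟨hst hθ.1, hθ.2⟩
  · intro s t hs ht
    have h : {θ : ℝ | θ ∈ s ∪ t ∧ ¬ WF θ (4 * ⌊θ * Real.log (2 / D)⌋₊ + 6)} =
        {θ : ℝ | θ ∈ s ∧ ¬ WF θ (4 * ⌊θ * Real.log (2 / D)⌋₊ + 6)} ∪
          {θ : ℝ | θ ∈ t ∧ ¬ WF θ (4 * ⌊θ * Real.log (2 / D)⌋₊ + 6)} := by
      ext θ
      simp only [Set.mem_ofPred_eq, Set.mem_union]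
      tauto
    rw [h, dimH_union]
    exact max_lt hs ht
  · intro x hx
    obtain ⟨ε, hε, h⟩ := FNa_local' hSM hD hD1 x (lt_of_lt_of_le hA hx.1)
    exact ⟨Set.Ioo (x - ε) (x + ε),
      mem_nhdsWithin_of_mem_nhds (Ioo_mem_nhds (by linarith) (by linarith)), h⟩

end Pool.Agent.Lib.MP_570bef_ntXD
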