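import Mathlib
import Pool.Agent.Lib.MP_570bef_ntXD.FNa

/-!
# LEAF FNb: the bound `C θ`

`D = 2 exp ((6 - C)/4)`. If `D > 1`: `dimH` of a subset of `ℝ` is `≤ 1 ≤ ofReal D` (`dimH_mono`, `Real.dimH_univ`). If `D ≤ 1`: the set is contained in `⋃ n : ℕ, {θ ∈ Icc (1 + 1/(n+1)) (n+2) | ¬ WF θ (4 ⌊θ log (2/D)⌋₊ + 6)}`
(`log (2/D) = (C - 6)/4`, and `4 ⌊θ (C-6)/4⌋₊ + 6 ≤ θ (C - 6) + 6 ≤ C θ` as `θ > 1`, `C ≥ 6`; so `4 ⌊..⌋₊ + 6 ≤ ⌊C θ⌋₊` by `Nat.le_floor`, and `wf_mono`; the intervals as in `ae_wf` of `MP_570bef_ntM/DimC.lean`). `dimH_iUnion`, `iSup_le`, `compact_D`.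
-/

set_option autoImplicit false

namespace Pool.Agent.Lib.MP_570bef_ntXD

open Pool.Agent.Lib.MP_570bef_ntM

theorem dim_C (hSM : SMD) (C : ℝ) :
    dimH {θ : ℝ | 1 < θ ∧ ¬ WF θ ⌊C * θ⌋₊} ≤ ENNReal.ofReal (2 * Real.exp ((6 - C) / 4)) := by
  obtain ⟨D, hD⟩ : ∃ D, D = 2 * Real.exp ((6 - C) / 4) := ⟨_, rfl⟩
  rw [← hD]
  have hD0 : 0 < D := by
    rw [hD]
    positivity
  rcases lt_or_ge 1 D with h1 | h1
  · refine (dimH_mono (Set.subset_univ _)).trans ?_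
    rw [Real.dimH_univ, ← ENNReal.ofReal_one]
    exact ENNReal.ofReal_le_ofReal h1.le
  have hC : 6 < C := by
    by_contra h
    push Not at h
    have h2 : (1 : ℝ) ≤ Real.exp ((6 - C) / 4) := Real.one_le_exp (by linarith)
    linarith
  have hlog : Real.log (2 / D) = (C - 6) / 4 := by
    have h2 : 2 / D = Real.exp ((C - 6) / 4) := by
      have h3 : (C - 6) / 4 = -((6 - C) / 4) := by ring
      rw [hD, h3, Real.exp_neg, div_mul_eq_div_div, div_self two_ne_zero, one_div]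
    rw [h2, Real.log_exp]
  have hsub : {θ : ℝ | 1 < θ ∧ ¬ WF θ ⌊C * θ⌋₊} ⊆ ⋃ n : ℕ,
      {θ : ℝ | θ ∈ Set.Icc (1 + 1 / ((n : ℝ) + 1)) ((n : ℝ) + 2) ∧
        ¬ WF θ (4 * ⌊θ * Real.log (2 / D)⌋₊ + 6)} := by
    rintro θ ⟨hθ, hw⟩
    obtain ⟨n, hn⟩ := exists_nat_ge (max (1 / (θ - 1)) θ)
    have hθ1 : 0 < θ - 1 := by linarith
    have hn1 : 1 / (θ - 1) ≤ n := (le_max_left _ _).trans hn
    have hn2 : θ ≤ n := (le_max_right _ _).trans hn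
    have hn3 : 1 ≤ (n : ℝ) * (θ - 1) := (div_le_iff₀ hθ1).1 hn1
    refine Set.mem_iUnion.2 ⟨n, ⟨?_, by linarith⟩, fun hw' => hw ?_⟩
    · have h2 : 1 / ((n : ℝ) + 1) ≤ θ - 1 := by
        rw [div_le_iff₀ (by positivity)]
        nlinarith
      linarith
    · refine wf_mono θ (by linarith) _ _ (Nat.le_floor ?_) hw'
      have hx : 0 ≤ θ * Real.log (2 / D) := by
        rw [hlog]
        exact mul_nonneg (by linarith) (by linarith)
      have h3 := Nat.floor_le hx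
      push_cast
      rw [hlog] at h3 ⊢
      nlinarith
  refine (dimH_mono hsub).trans ?_
  rw [dimH_iUnion]
  refine iSup_le fun n => (compact_D hSM hD0 h1 _ _ ?_).le
  have h2 : 0 < 1 / ((n : ℝ) + 1) := by positivity
  linarith

/-- `2 exp (-23.5) < 10^(-9)` -/
theorem exp_num : 2 * Real.exp ((6 - 100) / 4) < 1 / 10 ^ 9 := by
  have h1 : (2.7 : ℝ) < Real.exp 1 := lt_trans (by norm_num) Real.exp_one_gt_d9
  have h2 : (2.7 : ℝ) ^ 23 < Real.exp 23 := by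
    have h3 : Real.exp 23 = Real.exp 1 ^ 23 := by
      rw [← Real.exp_nat_mul]
      norm_num
    rw [h3]
    exact pow_lt_pow_left₀ h1 (by norm_num) (by norm_num)
  have h4 : Real.exp 23 ≤ Real.exp (47 / 2) := Real.exp_le_exp.2 (by norm_num)
  have h5 : (2 * 10 ^ 9 : ℝ) < (2.7 : ℝ) ^ 23 := by norm_num
  have h6 : ((6 : ℝ) - 100) / 4 = -(47 / 2) := by norm_num
  rw [h6, Real.exp_neg, ← div_eq_mul_inv, div_lt_div_iff₀ (Real.exp_pos _) (by norm_num)]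
  linarith

end Pool.Agent.Lib.MP_570bef_ntXD
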